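import Pool.Agent.Q28.FG.Defs

/-!
# Alternating products of zero-cycles on a surface: definitions
-/

open CategoryTheory AlgebraicGeometry

universe u v w

namespace Pool.Agent.Q28.FG

open Pool.Agent.H914 Pool.Agent.H914.VarClass Pool.Agent.H914.VarClass.Obj Pool.Agent.W492.BB
  Pool.Agent.W550.Corr Pool.Agent.TH133 Pool.Agent.Q28.PV Pool.Agent.Q28.AL

variable {k : Type u} [Field k] {𝒱 : VarClass k} {C : TheoryData.{u, v, 0} 𝒱 ℚ}
  {K : Type w} [Field K] (H : WeilTheoryData.{u, v, w} C K)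

/-- The alternating sum `∑ sgn(σ) a_σ(1) × ⋯ × a_σ(n)`, where `X = S^n` with projections `pr i`. -/
noncomputable def altSum {S X : 𝒱.Obj} {n : ℕ} (pr : Fin n → (X ⟶ S)) (a : Fin n → C.A S) : C.A X :=
  ∑ σ : Equiv.Perm (Fin n), ((Equiv.Perm.sign σ : ℤ) : ℚ) •
    (List.ofFn fun i => C.up (pr i) (a (σ i))).prod

/-- The subspace of `CH_0(S^n)` spanned by the alternating sums of `n` zero-cycles in the kernel
`T(S)` of the Albanese map of `S`. -/
noncomputable def altGroup {S X : 𝒱.Obj} {n : ℕ} (pr : Fin n → (X ⟶ S)) : Submodule ℚ (C.A X) :=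
  Submodule.span ℚ {w | ∃ a : Fin n → C.A S, (∀ i, AlbKernel H S (a i)) ∧ w = altSum pr a}

/-- The self-correspondence `e` of `X = S^n` is the projector of the motive `Λ^n t_2(S)`: it acts on
zero-cycles as a projector onto the subspace spanned by the alternating sums. (It is the composition
of the external power of the projector on `t_2(S)` and of `(1/n!) ∑ sgn(σ) σ`.) -/
structure IsAltProjector {S X : 𝒱.Obj} {n : ℕ} (pr : Fin n → (X ⟶ S)) (e : C.A (X.prod X)) :
    Prop where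
  dim : S.dim = 2 ∧ X.dim = 2 * n ∧ 1 ≤ n
  deg : C.Deg X.dim e
  maps : ∀ z, C.Deg X.dim z → C.act e z ∈ altGroup H (C := C) pr
  fix : ∀ w ∈ altGroup H (C := C) pr, C.act e w = w

/-- The subspace `W` of `CH_0(X)` consists of images `Γ_* g` of one cycle class `g` on some variety
`V`, with the property `P`. -/
def OneGeneratorOf (P : (V : 𝒱.Obj) → ℕ → C.A V → Prop) {X : 𝒱.Obj}
    (W : Submodule ℚ (C.A X)) : Prop :=
  ∃ (V : 𝒱.Obj) (e : ℕ) (g : C.A V), P V e g ∧ ∀ w ∈ W, ∃ Γ : C.A (V.prod X),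
    C.Deg ((V.dim : ℤ) + X.dim - e) Γ ∧ w = C.act Γ g

/-- The subspace `W` of `CH_0(X)` is contained in the group generated by countably many cycle
classes with the property `P` on varieties `V l` under all correspondences. -/
def CountablyGeneratedSub (P : (V : 𝒱.Obj) → ℕ → C.A V → Prop) {X : 𝒱.Obj}
    (W : Submodule ℚ (C.A X)) : Prop :=
  ∃ (ι : Type) (_ : Countable ι) (V : ι → 𝒱.Obj) (e : ι → ℕ) (g : ∀ i, C.A (V i)),
    (∀ i, P (V i) (e i) (g i)) ∧ W ≤ generated C e g X X.dim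

/-- The subspace `W` of `CH_0(X)` is finitely generated over the ring of self-correspondences
`CH^(dim X)(X × X)`. -/
def FinitelyGeneratedSub {X : 𝒱.Obj} (W : Submodule ℚ (C.A X)) : Prop :=
  ∃ (m : ℕ) (g : Fin m → C.A X), (∀ i, g i ∈ W) ∧ ∀ w ∈ W, ∃ Γ : Fin m → C.A (X.prod X),
    (∀ i, C.Deg X.dim (Γ i)) ∧ w = ∑ i, C.act (Γ i) (g i)

end Pool.Agent.Q28.FG
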