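import Pool.Agent.Q28.FG.Piece
import Pool.Agent.Q28.FG.VDefs

/-!
# Alternating products of zero-cycles on a surface: proofs
-/

open CategoryTheory AlgebraicGeometry

universe u v w

namespace Pool.Agent.Q28.FG

set_option linter.unusedSectionVars false

open Pool.Agent.H914 Pool.Agent.H914.VarClass Pool.Agent.H914.VarClass.Obj Pool.Agent.W492.BB
  Pool.Agent.W550.Corr Pool.Agent.TH133 Pool.Agent.Q28.PV Pool.Agent.Q28.AL

variable {k : Type u} [Field k] {𝒱 : VarClass k} {C : TheoryData.{u, v, 0} 𝒱 ℚ} [IsChowProj C]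
  {K : Type w} [Field K] {H : WeilTheoryData.{u, v, w} C K} [IsWeilProj H]
  {X Y Z T S B : 𝒱.Obj} {P : (V : 𝒱.Obj) → ℕ → C.A V → Prop}

lemma oneGen_countable {W : Submodule ℚ (C.A X)} (h : OneGeneratorOf P W) :
    CountablyGeneratedSub P W := by
  obtain ⟨V, e, g, hg, hw⟩ := h
  refine ⟨Unit, inferInstance, fun _ => V, fun _ => e, fun _ => g, fun _ => hg, fun w hw' => ?_⟩
  obtain ⟨Γ, hΓ, rfl⟩ := hw w hw'
  exact Submodule.subset_span ⟨(), Γ, hΓ, rfl⟩

lemma oneGen_of {W : Submodule ℚ (C.A X)} {G : C.A (X.prod X)}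
    (hWd : ∀ w ∈ W, C.Deg X.dim w) (hG : P (X.prod X) X.dim G)
    (hfix : ∀ w ∈ W, C.act G w = w) : OneGeneratorOf P W := by
  refine ⟨X.prod X, X.dim, G, hG, fun w hw => ?_⟩
  obtain ⟨Γ, hΓ, he⟩ := act_as_image (j := X.dim) G (hWd w hw)
  exact ⟨Γ, hΓ, by rw [← he, hfix w hw]⟩

/-- The general theorem for a subspace of the zero-cycles which is the image of a projector. -/
theorem sub_main (hP : Principles H) {W : Submodule ℚ (C.A X)} {e : C.A (X.prod X)}
    (he : C.Deg X.dim e) (hmaps : ∀ z, C.Deg X.dim z → C.act e z ∈ W)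
    (hfix : ∀ w ∈ W, C.act e w = w) (hW : ∀ w ∈ W, HomTriv H X X.dim w) :
    [∃ G, HomTriv H (X.prod X) X.dim G ∧ e - G ∈ overDivisors C X X X.dim,
      OneGeneratorOf (HomTriv H) W, CountablyGeneratedSub (HomTriv H) W].TFAE ∧
    [∀ w ∈ W, w = 0, FinitelyGeneratedSub W, OneGeneratorOf (AlgTriv H) W,
      CountablyGeneratedSub (AlgTriv H) W].TFAE := by
  have hWd : ∀ w ∈ W, C.Deg X.dim w := fun w hw => (hW w hw).1
  have key : ∀ {G : C.A (X.prod X)}, e - G ∈ overDivisors C X X X.dim →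
      ∀ w ∈ W, C.act G w = w := by
    intro G hG w hw
    have h1 := overDivisors_act hG (hWd w hw)
    rw [C.act_sub, sub_eq_zero, hfix w hw] at h1
    exact h1.symm
  constructor
  · tfae_have 1 → 2 := by
      rintro ⟨G, hG, hE⟩
      exact oneGen_of hWd hG (key hE)
    tfae_have 2 → 3 := oneGen_countable
    tfae_have 3 → 1 := by
      rintro ⟨ι, _, V, ε, g, hg, hw⟩
      obtain ⟨G, E, hG, hE, h⟩ := spread_sum hP.spreading (homTriv_closed (H := H)) (j := X.dim)
        he hg (fun y hy => hw (hmaps y hy))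
      exact ⟨G, hG, by rw [h, add_sub_cancel_left]; exact hE⟩
    tfae_finish
  · have hcl := algTriv_closed hP X
    tfae_have 1 → 2 := by
      intro h
      exact ⟨0, fun i => i.elim0, fun i => i.elim0, fun w hw => ⟨fun i => i.elim0,
        fun i => i.elim0, by rw [h w hw, Finset.univ_eq_empty, Finset.sum_empty]⟩⟩
    tfae_have 1 → 3 := by
      intro h
      refine ⟨X, 0, 0, hcl.zero _ _, fun w hw => ⟨0, zero_mem _, ?_⟩⟩
      rw [h w hw, C.act_zero]
    tfae_have 2 → 4 := by
      rintro ⟨m, g, hg, hw⟩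
      refine ⟨Fin m, inferInstance, fun _ => X, fun _ => X.dim, g,
        fun i => hP.moving X _ (hW _ (hg i)), fun w hw' => ?_⟩
      obtain ⟨Γ, hΓ, rfl⟩ := hw w hw'
      refine Submodule.sum_mem _ fun i _ => Submodule.subset_span ⟨i, Γ i, ?_, rfl⟩
      have e1 : (X.dim : ℤ) + X.dim - X.dim = X.dim := by ring
      rw [e1]; exact hΓ i
    tfae_have 3 → 4 := oneGen_countable
    tfae_have 4 → 1 := by
      rintro ⟨ι, _, V, ε, g, hg, hw⟩ w hw'
      obtain ⟨G, E, hG, hE, h⟩ := spread_sum hP.spreading hcl (j := X.dim)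
        he hg (fun y hy => hw (hmaps y hy))
      obtain ⟨N, hN⟩ := hP.nilpotent X G hG
      have h1 : C.act G w = w := key (by rw [h, add_sub_cancel_left]; exact hE) w hw'
      have h3 := compList_fix h1 N
      rw [hN, C.act_zero] at h3
      exact h3.symm
    tfae_finish

lemma prod_mem_gr {l : List (C.A X)} (hl : ∀ x ∈ l, x ∈ C.gr X 2) :
    l.prod ∈ C.gr X (2 * l.length : ℕ) := by
  induction l with
  | nil => simpa using C.one_mem X
  | cons x l ih =>
    rw [List.prod_cons, List.length_cons]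
    have h1 := C.mul_mem (hl x List.mem_cons_self) (ih fun y hy => hl y (List.mem_cons_of_mem _ hy))
    have e : ((2 * (l.length + 1) : ℕ) : ℤ) = 2 + (2 * l.length : ℕ) := by push_cast; ring
    rw [e]; exact h1

lemma cl_prod_zero {l : List (C.A X)} {x : C.A X} (hx : x ∈ l) (h : H.cl x = 0) :
    H.cl l.prod = 0 := by
  induction l with
  | nil => simp at hx
  | cons y l ih =>
    rw [List.prod_cons, map_mul]
    rcases List.mem_cons.1 hx with rfl | hx
    · rw [h, zero_mul]
    · rw [ih hx, mul_zero]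

lemma altGroup_hom {n : ℕ} {pr : Fin n → (X ⟶ S)} (hS : S.dim = 2) (hX : X.dim = 2 * n)
    (hn : 1 ≤ n) {w : C.A X} (hw : w ∈ altGroup H (C := C) pr) : HomTriv H X X.dim w := by
  induction hw using Submodule.span_induction with
  | mem w hw =>
    obtain ⟨a, ha, rfl⟩ := hw
    rw [altSum]
    refine HomTriv.sum _ fun σ _ => HomTriv.smul _ ⟨?_, ?_⟩
    · have h1 := prod_mem_gr (C := C) (X := X)
        (l := List.ofFn fun i => C.pull (pr i) (a (σ i))) (fun x hx => by
          obtain ⟨i, rfl⟩ := (List.mem_ofFn' _ _).1 hx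
          have := (ha (σ i)).1.1
          rw [hS] at this
          exact C.pull_mem _ (by exact_mod_cast this))
      rw [List.length_ofFn, ← hX] at h1
      exact h1
    · refine cl_prod_zero (x := C.pull (pr ⟨0, hn⟩) (a (σ ⟨0, hn⟩)))
        ((List.mem_ofFn' _ _).2 ⟨⟨0, hn⟩, rfl⟩) ?_
      rw [H.cl_pull, (ha _).1.2, map_zero]
  | zero => exact HomTriv.zero
  | add x y _ _ hx hy => exact hx.add hy
  | smul q x _ hx => exact hx.smul q

theorem alt_main (hP : Principles H) {n : ℕ} (pr : Fin n → (X ⟶ S)) {e : C.A (X.prod X)}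
    (he : IsAltProjector H pr e) :
    [∃ G, HomTriv H (X.prod X) X.dim G ∧ e - G ∈ overDivisors C X X X.dim,
      OneGeneratorOf (HomTriv H) (altGroup H (C := C) pr),
      CountablyGeneratedSub (HomTriv H) (altGroup H (C := C) pr)].TFAE ∧
    [∀ a : Fin n → C.A S, (∀ i, AlbKernel H S (a i)) → altSum pr a = 0,
      FinitelyGeneratedSub (altGroup H (C := C) pr),
      OneGeneratorOf (AlgTriv H) (altGroup H (C := C) pr),
      CountablyGeneratedSub (AlgTriv H) (altGroup H (C := C) pr)].TFAE := by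
  have h := sub_main hP he.deg he.maps he.fix
    (fun w hw => altGroup_hom he.dim.1 he.dim.2.1 he.dim.2.2 hw)
  refine ⟨h.1, ?_⟩
  tfae_have 1 ↔ 2 := by
    have h0 := h.2.out 0 1
    refine Iff.trans ?_ h0
    constructor
    · intro h1 w hw
      have h2 : altGroup H (C := C) pr ≤ ⊥ := by
        refine Submodule.span_le.2 ?_
        rintro w ⟨a, ha, rfl⟩
        exact h1 a ha
      exact (Submodule.mem_bot _).1 (h2 hw)
    · intro h1 a ha
      exact h1 _ (Submodule.subset_span ⟨a, ha, rfl⟩)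
  tfae_have 2 ↔ 3 := h.2.out 1 2
  tfae_have 3 ↔ 4 := h.2.out 2 3
  tfae_finish

end Pool.Agent.Q28.FG
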