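import Pool.Agent.Q28.FG.Defs

/-!
# Generation of the image of a correspondence between surfaces: definitions
-/

open CategoryTheory AlgebraicGeometry

universe u v w

namespace Pool.Agent.Q28.FG

open Pool.Agent.H914 Pool.Agent.H914.VarClass Pool.Agent.H914.VarClass.Obj Pool.Agent.W492.BB
  Pool.Agent.W550.Corr Pool.Agent.TH133 Pool.Agent.Q28.PV Pool.Agent.Q28.AL

variable {k : Type u} [Field k] {𝒱 : VarClass k} {C : TheoryData.{u, v, 0} 𝒱 ℚ}
  {K : Type w} [Field K] (H : WeilTheoryData.{u, v, w} C K)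

/-- The image `Φ_* T(S)` of the kernel `T(S)` of the Albanese map consists of images `Γ_* z` of one
cycle class `z` of codimension `e` on some variety `V`, with the property `P`. -/
def OneGeneratorOfImage (P : (V : 𝒱.Obj) → ℕ → C.A V → Prop) {S T : 𝒱.Obj} (Φ : C.A (S.prod T)) :
    Prop :=
  ∃ (V : 𝒱.Obj) (e : ℕ) (z : C.A V), P V e z ∧ ∀ w, AlbKernel H S w →
    ∃ Γ : C.A (V.prod T), C.Deg ((V.dim : ℤ) + 2 - e) Γ ∧ C.act Φ w = C.act Γ z

/-- The image `Φ_* T(S)` is contained in the group generated by countably many cycle classes `z i`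
with the property `P` on varieties `V i` under all correspondences, and by the images of the
zero-cycles of curves `U i` under countably many fixed correspondences `Ψ i`. -/
def CountablyGeneratedImage (P : (V : 𝒱.Obj) → ℕ → C.A V → Prop) {S T : 𝒱.Obj}
    (Φ : C.A (S.prod T)) : Prop :=
  ∃ (ι κ : Type) (_ : Countable ι) (_ : Countable κ) (V : ι → 𝒱.Obj) (e : ι → ℕ)
    (z : ∀ i, C.A (V i)) (U : κ → 𝒱.Obj) (Ψ : ∀ i, C.A ((U i).prod T)),
    (∀ i, P (V i) (e i) (z i)) ∧ (∀ i, (U i).dim = 1 ∧ C.Deg 2 (Ψ i)) ∧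
      ∀ w, AlbKernel H S w → C.act Φ w ∈ generated C e z T 2 ⊔ fromCurves C Ψ

/-- The image `Φ_* T(S)` is contained in a finitely generated submodule of `T(S)`, over the ring
`CH^2(S × S)` of self-correspondences. -/
def FinitelyGeneratedImage {S : 𝒱.Obj} (Φ : C.A (S.prod S)) : Prop :=
  ∃ (m : ℕ) (z : Fin m → C.A S), (∀ i, AlbKernel H S (z i)) ∧ ∀ w, AlbKernel H S w →
    ∃ Γ : Fin m → C.A (S.prod S), (∀ i, C.Deg 2 (Γ i)) ∧ C.act Φ w = ∑ i, C.act (Γ i) (z i)

end Pool.Agent.Q28.FG
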