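import Pool.Agent.Q28.FG.Defs

/-!
# Generation of cycles of low dimension under correspondences: definitions
-/

open CategoryTheory AlgebraicGeometry

universe u v w

namespace Pool.Agent.Q28.FG

open Pool.Agent.H914 Pool.Agent.H914.VarClass Pool.Agent.H914.VarClass.Obj Pool.Agent.W492.BB
  Pool.Agent.W550.Corr Pool.Agent.TH133 Pool.Agent.Q28.PV Pool.Agent.Q28.AL

variable {k : Type u} [Field k] {𝒱 : VarClass k} (C : TheoryData.{u, v, 0} 𝒱 ℚ)

/-- The self-correspondences of degree zero of `X` which are sums of classes `v × w` with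
`v ∈ CH^i(X)` and `w ∈ CH_i(X)`, `i < c`. -/
noncomputable def lowSplit (X : 𝒱.Obj) (c : ℕ) : Submodule ℚ (C.A (X.prod X)) :=
  Submodule.span ℚ {g | ∃ (i : ℕ) (v w : C.A X), i < c ∧ C.Deg i v ∧ C.Deg ((X.dim : ℤ) - i) w ∧
    g = C.ext v w}

/-- The self-correspondences of degree zero of `X` which are supported in codimension `c`: sums of
compositions of classes in `CH^(dim X)(X × D)` and in `CH^(dim X - c)(D × X)`, for varieties `D` of
dimension `dim X - c`. -/
noncomputable def overCodim (X : 𝒱.Obj) (c : ℕ) : Submodule ℚ (C.A (X.prod X)) :=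
  Submodule.span ℚ {g | ∃ (D : 𝒱.Obj) (β : C.A (X.prod D)) (α : C.A (D.prod X)),
    D.dim + c = X.dim ∧ C.Deg X.dim β ∧ C.Deg ((X.dim : ℤ) - c) α ∧ g = C.comp β α}

variable {C} {K : Type w} [Field K] (H : WeilTheoryData.{u, v, w} C K)

/-- The variety `X` has *algebraic coniveau* at least `c`: the class of the diagonal is
homologically equivalent to a sum of classes `v × w`, `v ∈ CH^i(X)`, `w ∈ CH_i(X)`, `i < c`, and of a
class supported in codimension `c`. Then `X` has Hodge coniveau at least `c`; the converse is a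
consequence of the generalized Hodge conjecture and the Lefschetz standard conjecture. -/
def AlgebraicConiveau (X : 𝒱.Obj) (c : ℕ) : Prop :=
  ∃ E ∈ lowSplit C X c ⊔ overCodim C X c, ∃ G, HomTriv H (X.prod X) X.dim G ∧ dg C X = E + G

/-- `A_i^hom(X) = 0` for all `i < c`. (In terms of the codimension `j = dim X - i`.) -/
def BlochUpTo (X : 𝒱.Obj) (c : ℕ) : Prop :=
  ∀ (j : ℕ) (z : C.A X), X.dim < j + c → HomTriv H X j z → z = 0

/-- There is one cycle class `g` of codimension `e` on some variety `V`, with the property `P`, such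
that for `i < c` every element of `A_i^hom(X)` is of the form `Γ_* g`. -/
def OneGeneratorUpTo (P : (V : 𝒱.Obj) → ℕ → C.A V → Prop) (X : 𝒱.Obj) (c : ℕ) : Prop :=
  ∃ (V : 𝒱.Obj) (e : ℕ) (g : C.A V), P V e g ∧ ∀ (j : ℕ) (z : C.A X), X.dim < j + c →
    HomTriv H X j z → ∃ Γ : C.A (V.prod X), C.Deg ((V.dim : ℤ) + j - e) Γ ∧ z = C.act Γ g

/-- For `i < c` the group `A_i^hom(X)` is contained in the group generated by countably many cycle
classes with the property `P` on varieties `V l` under all correspondences. -/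
def CountablyGeneratedUpTo (P : (V : 𝒱.Obj) → ℕ → C.A V → Prop) (X : 𝒱.Obj) (c : ℕ) : Prop :=
  ∀ j : ℕ, X.dim < j + c → ∃ (ι : Type) (_ : Countable ι) (V : ι → 𝒱.Obj) (e : ι → ℕ)
    (g : ∀ i, C.A (V i)), (∀ i, P (V i) (e i) (g i)) ∧
      ∀ z, HomTriv H X j z → z ∈ generated C e g X j

/-- For `i < c` the group `A_i^hom(X)` is a finitely generated module over the ring of
self-correspondences `CH^(dim X)(X × X)`. -/
def FinitelyGeneratedUpTo (X : 𝒱.Obj) (c : ℕ) : Prop :=
  ∀ j : ℕ, X.dim < j + c → ∃ (m : ℕ) (g : Fin m → C.A X), (∀ i, HomTriv H X j (g i)) ∧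
    ∀ z, HomTriv H X j z → ∃ Γ : Fin m → C.A (X.prod X), (∀ i, C.Deg X.dim (Γ i)) ∧
      z = ∑ i, C.act (Γ i) (g i)

end Pool.Agent.Q28.FG
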