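import Pool.Agent.TH133.Ext

/-!
# Cycles generated by fixed cycles under all correspondences: definitions
-/

open CategoryTheory AlgebraicGeometry

universe u v w

namespace Pool.Agent.Q28.FG

open Pool.Agent.H914 Pool.Agent.H914.VarClass Pool.Agent.H914.VarClass.Obj Pool.Agent.W492.BB

variable {k : Type u} [Field k] {𝒱 : VarClass k} (C : TheoryData.{u, v, 0} 𝒱 ℚ)

/-- The subspace of `CH^j(T)` generated by the classes `z i ∈ CH^(e i)(V i)` under all
correspondences `Γ ∈ CH^(dim V i + j - e i)(V i × T)`: the sums of classes `Γ_* (z i)`. -/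
noncomputable def generated {ι : Type} {V : ι → 𝒱.Obj} (e : ι → ℕ) (z : ∀ i, C.A (V i))
    (T : 𝒱.Obj) (j : ℕ) : Submodule ℚ (C.A T) :=
  Submodule.span ℚ {w | ∃ (i : ι) (Γ : C.A ((V i).prod T)),
    C.Deg (((V i).dim : ℤ) + j - e i) Γ ∧ w = C.act Γ (z i)}

/-- The subspace of `CH^j(T)` spanned by the images of the zero-cycles of the curves `U i` under the
fixed correspondences `Φ i ∈ CH^j(U i × T)`. -/
noncomputable def fromCurves {κ : Type} {U : κ → 𝒱.Obj} {T : 𝒱.Obj} (Φ : ∀ i, C.A ((U i).prod T)) :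
    Submodule ℚ (C.A T) :=
  Submodule.span ℚ {w | ∃ (i : κ) (c : C.A (U i)), C.Deg 1 c ∧ w = C.act (Φ i) c}

/-- The families of cycles on `T` with parameter space `B` obtained from families of zero-cycles
on the curves `U i` (divisors `ψ` on `B × U i`) by means of the fixed correspondences `Φ i`. -/
noncomputable def throughFixed {κ : Type} {U : κ → 𝒱.Obj} {T : 𝒱.Obj}
    (Φ : ∀ i, C.A ((U i).prod T)) (B : 𝒱.Obj) : Submodule ℚ (C.A (B.prod T)) :=
  Submodule.span ℚ {g | ∃ (i : κ) (ψ : C.A (B.prod (U i))), C.Deg 1 ψ ∧ g = C.comp ψ (Φ i)}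

/-- The classes in `CH^j(B × T)` supported on `D × T` for divisors `D` of `B`: sums of compositions
of the restriction to (resolutions of) divisors `D` and of cycles of codimension `j - 1` on
`D × T`. -/
noncomputable def overDivisors (B T : 𝒱.Obj) (j : ℕ) : Submodule ℚ (C.A (B.prod T)) :=
  Submodule.span ℚ {g | ∃ (D : 𝒱.Obj) (β : C.A (B.prod D)) (α : C.A (D.prod T)),
    D.dim + 1 = B.dim ∧ C.Deg B.dim β ∧ C.Deg ((j : ℤ) - 1) α ∧ g = C.comp β α}

/-- The principle of spreading out, for varieties over the complex numbers. Let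
`Γ ∈ CH^j(Y × T)` be a family of cycles on `T` such that every member `Γ_* y` lies in the subspace
generated by countably many fixed cycles `z i ∈ CH^(e i)(V i)` under all correspondences and by the
images of zero-cycles of curves `U i` under countably many fixed correspondences `Φ i`. The
correspondences, zero-cycles and rational equivalences which occur are parametrised by countably many
varieties, so after a generically finite map `f : B → Y` they can be chosen in a family over a
nonempty open subset of `B`, and the difference is supported on `D × T` for a divisor `D` of `B`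
(Bloch, Srinivas). -/
def Spreading : Prop :=
  ∀ (ι κ : Type) [Countable ι] [Countable κ] (V : ι → 𝒱.Obj) (e : ι → ℕ) (z : ∀ i, C.A (V i))
    (U : κ → 𝒱.Obj) (Y T : 𝒱.Obj) (j : ℕ) (Φ : ∀ i, C.A ((U i).prod T)) (Γ : C.A (Y.prod T)),
    (∀ i, C.Deg (e i) (z i)) → (∀ i, (U i).dim = 1 ∧ C.Deg j (Φ i)) → C.Deg j Γ →
    (∀ y : C.A Y, C.Deg Y.dim y → C.act Γ y ∈ generated C e z T j ⊔ fromCurves C Φ) →
    ∃ (B : 𝒱.Obj) (f : B ⟶ Y) (q : ℚ), B.dim = Y.dim ∧ q ≠ 0 ∧ C.down f 1 = q • (1 : C.A Y) ∧
      C.comp (C.graph f) Γ ∈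
        generated C e z (B.prod T) j ⊔ throughFixed C Φ B ⊔ overDivisors C B T j

end Pool.Agent.Q28.FG
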