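import Pool.Agent.Q28.AL.Defs
import Pool.Agent.Q28.FG.Gen

/-!
# Zero-cycles generated by fixed cycles under all correspondences: definitions
-/

open CategoryTheory AlgebraicGeometry

universe u v w

namespace Pool.Agent.Q28.FG

open Pool.Agent.H914 Pool.Agent.H914.VarClass Pool.Agent.H914.VarClass.Obj Pool.Agent.W492.BB
  Pool.Agent.W550.Corr Pool.Agent.TH133 Pool.Agent.Q28.PV Pool.Agent.Q28.AL

variable {k : Type u} [Field k] {𝒱 : VarClass k} {C : TheoryData.{u, v, 0} 𝒱 ℚ} {K : Type w} [Field K] (H : WeilTheoryData.{u, v, w} C K)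

/-- Known facts on varieties over the complex numbers: the principle of spreading out; sums of
algebraically trivial classes are algebraically trivial; zero-cycles of degree zero are
algebraically trivial; algebraically trivial self-correspondences of degree zero are nilpotent
(a consequence of the theorem of Voevodsky and Voisin that algebraically trivial cycles are smash
nilpotent). -/
structure Principles : Prop where
  spreading : Spreading C
  add : ∀ (X : 𝒱.Obj) (j : ℕ) (z z' : C.A X), AlgTriv H X j z → AlgTriv H X j z' →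
    AlgTriv H X j (z + z')
  moving : ∀ (X : 𝒱.Obj) (z : C.A X), HomTriv H X X.dim z → AlgTriv H X X.dim z
  nilpotent : ∀ (X : 𝒱.Obj) (f : C.A (X.prod X)), AlgTriv H (X.prod X) X.dim f →
    ∃ N : ℕ, compList C X (List.replicate N f) = 0

/-- The class `p` is the projector on the transcendental part `t_2(S)` of the motive of the surface
`S` (Murre; Kahn, Murre, Pedrini). It is an idempotent, its compositions with divisors on `S × D` and
`D × S` are zero for all `D`, and it acts on the zero-cycles as a projector onto the kernel of the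
Albanese map. Its class in cohomology is zero if and only if `H^2(S)` is algebraic, that is
`p_g(S) = 0`. -/
structure IsTransc (S : 𝒱.Obj) (p : C.A (S.prod S)) : Prop where
  dim : S.dim = 2
  deg : C.Deg 2 p
  idem : C.comp p p = p
  left : ∀ (D : 𝒱.Obj) (α : C.A (S.prod D)), C.Deg 1 α → C.comp p α = 0
  right : ∀ (D : 𝒱.Obj) (δ : C.A (D.prod S)), C.Deg 1 δ → C.comp δ p = 0
  maps : ∀ z : C.A S, C.Deg 2 z → AlbKernel H S (C.act p z)
  fix : ∀ z : C.A S, AlbKernel H S z → C.act p z = z

/-- The kernel `T(S)` of the Albanese map of `S` consists of the images `Γ_* z` of one cycle class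
`z` of codimension `e` on some variety `V`, with the property `P`. -/
def OneGenerator (P : (V : 𝒱.Obj) → ℕ → C.A V → Prop) (S : 𝒱.Obj) : Prop :=
  ∃ (V : 𝒱.Obj) (e : ℕ) (z : C.A V), P V e z ∧ ∀ w, AlbKernel H S w →
    ∃ Γ : C.A (V.prod S), C.Deg ((V.dim : ℤ) + 2 - e) Γ ∧ w = C.act Γ z

/-- The kernel `T(S)` of the Albanese map of `S` is contained in the group generated by countably
many cycle classes `z i` with the property `P` on varieties `V i` under all correspondences, and by
the images of the zero-cycles of curves `U i` under countably many fixed correspondences `Φ i`. -/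
def CountablyGenerated (P : (V : 𝒱.Obj) → ℕ → C.A V → Prop) (S : 𝒱.Obj) : Prop :=
  ∃ (ι κ : Type) (_ : Countable ι) (_ : Countable κ) (V : ι → 𝒱.Obj) (e : ι → ℕ)
    (z : ∀ i, C.A (V i)) (U : κ → 𝒱.Obj) (Φ : ∀ i, C.A ((U i).prod S)),
    (∀ i, P (V i) (e i) (z i)) ∧ (∀ i, (U i).dim = 1 ∧ C.Deg 2 (Φ i)) ∧
      ∀ w, AlbKernel H S w → w ∈ generated C e z S 2 ⊔ fromCurves C Φ

/-- The kernel `T(S)` of the Albanese map of `S` is finitely generated as a module over the ring
`CH^2(S × S)` of self-correspondences. -/
def FinitelyGenerated (S : 𝒱.Obj) : Prop :=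
  ∃ (m : ℕ) (z : Fin m → C.A S), (∀ i, AlbKernel H S (z i)) ∧ ∀ w, AlbKernel H S w →
    ∃ Γ : Fin m → C.A (S.prod S), (∀ i, C.Deg 2 (Γ i)) ∧ w = ∑ i, C.act (Γ i) (z i)

end Pool.Agent.Q28.FG
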