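import Pool.Agent.Q28.PV.Basic
import Pool.Agent.Q28.FG.Defs

/-!
# Zero-cycles generated by fixed cycles under all correspondences: proofs
-/

open CategoryTheory AlgebraicGeometry

universe u v w

namespace Pool.Agent.Q28.FG

set_option linter.unusedSectionVars false

open Pool.Agent.H914 Pool.Agent.H914.VarClass Pool.Agent.H914.VarClass.Obj Pool.Agent.W492.BB
  Pool.Agent.W550.Corr Pool.Agent.TH133 Pool.Agent.Q28.PV Pool.Agent.Q28.AL

variable {k : Type u} [Field k] {𝒱 : VarClass k} {C : TheoryData.{u, v, 0} 𝒱 ℚ} [IsChowProj C]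
  {K : Type w} [Field K] {H : WeilTheoryData.{u, v, w} C K} [IsWeilProj H] {X Y Z T S B : 𝒱.Obj}

lemma cograph_comp_graph {f : B ⟶ Y} {q : ℚ} (hf : C.push f 1 = q • (1 : C.A Y)) :
    C.comp (C.cograph f) (C.graph f) = q • dg C Y := by
  rw [comp_eq_extR, extR_graph, TheoryData.cograph, ← C.push_comp]
  have e : Obj.lift f (𝟙 B) ≫ prodMap (𝟙 Y) f = f ≫ Obj.lift (𝟙 Y) (𝟙 Y) := by
    apply prod_ext <;> simp [prodMap, comp_lift]
  rw [e, C.push_comp, hf, map_smul]
  rfl

lemma comp_smul' (q : ℚ) (Γ : C.A (X.prod Y)) (Δ : C.A (Y.prod Z)) :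
    C.comp Γ (q • Δ) = q • C.comp Γ Δ := map_smul (compL C Γ) q Δ

lemma smul_comp' (q : ℚ) (Γ : C.A (X.prod Y)) (Δ : C.A (Y.prod Z)) :
    C.comp (q • Γ) Δ = q • C.comp Γ Δ := by
  simp only [← compL_apply, map_smul, LinearMap.smul_apply]

/-- Composition on both sides as the action of a correspondence. -/
lemma sandwich (x : C.A (S.prod B)) (g : C.A (B.prod S)) (y : C.A (S.prod S)) :
    C.comp (C.comp x g) y = C.act (tens C (tp C x) y) g := by
  rw [act_tens C (ch_comm C), tp_tp]

/-- The key computation: if `T(S)` is generated by cycles with a property `P` stable under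
correspondences and sums, then a nonzero multiple of the projector has the property `P`. -/
theorem projector_mem (hP : Spreading C) {P : (V : 𝒱.Obj) → ℕ → C.A V → Prop}
    (hdeg : ∀ V e z, P V e z → C.Deg e z)
    (hact : ∀ (V W : 𝒱.Obj) (e j : ℕ) (Γ : C.A (V.prod W)) (z : C.A V),
      C.Deg ((V.dim : ℤ) + j - e) Γ → P V e z → P W j (C.act Γ z))
    (hadd : ∀ V e z z', P V e z → P V e z' → P V e (z + z')) (hzero : ∀ V e, P V e 0)
    (hsmul : ∀ V e (q : ℚ) z, P V e z → P V e (q • z))
    {p : C.A (S.prod S)} (hp : IsTransc H S p) (hg : CountablyGenerated H P S) :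
    P (S.prod S) 2 p := by
  obtain ⟨ι, κ, _, _, V, e, z, U, Φ, hz, hΦ, hgen⟩ := hg
  have hpd : C.Deg (2 : ℕ) p := hp.deg
  obtain ⟨B, f, q, hB, hq, hf, hmem⟩ := hP ι κ V e z U S S 2 Φ p (fun i => hdeg _ _ _ (hz i)) hΦ
    hpd fun y hy => hgen _ (hp.maps y (by rw [hp.dim] at hy; exact hy))
  obtain ⟨gm, hgm, s, hs, hsum⟩ := Submodule.mem_sup.1 hmem
  obtain ⟨g, hgg, m, hm, hgms⟩ := Submodule.mem_sup.1 hgm
  set x : C.A (S.prod B) := C.comp p (C.cograph f) with hx
  have hxm : x ∈ C.gr (S.prod B) 2 := by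
    have h1 : p ∈ C.gr (S.prod S) ((S.dim : ℤ) + 0) := by
      rw [hp.dim]; exact hp.deg
    have h2 : C.cograph f ∈ C.gr (S.prod B) ((S.dim : ℤ) + 0) := by
      rw [add_zero]; exact cograph_mem f
    have h3 := comp_mem C h1 h2
    rw [hp.dim] at h3
    exact_mod_cast h3
  -- the middle part
  have e1 : C.comp (C.comp x m) p = 0 := by
    have h0 : C.comp x m = 0 := by
      clear hgms hgm
      induction hm using Submodule.span_induction with
      | mem y hy =>
        obtain ⟨i, ψ, hψ, rfl⟩ := hy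
        have h2 : C.comp (C.cograph f) ψ ∈ C.gr (S.prod (U i)) 1 := by
          have h3 : C.cograph f ∈ C.gr (S.prod B) ((S.dim : ℤ) + 0) := by
            rw [add_zero]; exact cograph_mem f
          have h4 : ψ ∈ C.gr (B.prod (U i)) ((B.dim : ℤ) + (1 - B.dim)) := by
            have e : (B.dim : ℤ) + (1 - B.dim) = 1 := by ring
            rw [e]; exact hψ
          have h5 := comp_mem C h3 h4
          have e : (S.dim : ℤ) + (0 + (1 - B.dim)) = 1 := by rw [hB]; ring
          rw [e] at h5; exact h5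
        rw [← comp_assoc, hx, comp_assoc C p, hp.left _ _ h2, zero_comp]
      | zero => exact comp_zero C x
      | add y y' _ _ hy hy' => rw [comp_add, hy, hy', add_zero]
      | smul a y _ hy => rw [comp_smul', hy, smul_zero]
    rw [h0, zero_comp]
  -- the part over divisors
  have e2 : C.comp (C.comp x s) p = 0 := by
    rw [comp_assoc]
    have h0 : C.comp s p = 0 := by
      clear hsum
      induction hs using Submodule.span_induction with
      | mem y hy =>
        obtain ⟨D, β, α, hD, hβ, hα, rfl⟩ := hy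
        rw [comp_assoc, hp.right D α (by norm_num at hα; exact hα), comp_zero]
      | zero => exact zero_comp C p
      | add y y' _ _ hy hy' => rw [add_comp, hy, hy', add_zero]
      | smul a y _ hy => rw [smul_comp', hy, smul_zero]
    rw [h0, comp_zero]
  -- the generated part
  have e3 : P (S.prod S) 2 (C.comp (C.comp x g) p) := by
    clear hgms hgm
    induction hgg using Submodule.span_induction with
    | mem y hy =>
      obtain ⟨i, Γ, hΓ, rfl⟩ := hy
      rw [sandwich]
      refine hact _ _ _ _ _ _ ?_ (hact _ _ _ _ _ _ hΓ (hz i))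
      have h1 := tens_mem C (tp_mem C hxm) hp.deg
      have e : ((B.prod S).dim : ℤ) + (2 : ℕ) - (2 : ℕ) = 2 + 2 := by
        rw [dim_prod, hB, hp.dim]; norm_num
      rw [e]; exact h1
    | zero => rw [comp_zero, zero_comp]; exact hzero _ _
    | add y y' _ _ hy hy' => rw [comp_add, add_comp]; exact hadd _ _ _ _ hy hy'
    | smul a y _ hy => rw [comp_smul', smul_comp']; exact hsmul _ _ _ _ hy
  have e4 : C.comp (C.comp x (C.comp (C.graph f) p)) p = q • p := by
    rw [hx, comp_assoc C p, ← comp_assoc C (C.cograph f), cograph_comp_graph hf, smul_comp',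
      dg_comp, comp_smul', hp.idem, smul_comp', hp.idem]
  rw [← hsum, ← hgms, comp_add, comp_add, add_comp, add_comp, e1, e2, add_zero, add_zero] at e4
  rw [e4] at e3
  have h := hsmul _ _ q⁻¹ _ e3
  rwa [smul_smul, inv_mul_cancel₀ hq, one_smul] at h

lemma compList_idem {p : C.A (X.prod X)} (hp : C.comp p p = p) (N : ℕ) :
    C.comp p (compList C X (List.replicate N p)) = p := by
  induction N with
  | zero => exact comp_dg C p
  | succ N ih =>
    rw [List.replicate_succ, compList, ← comp_assoc, hp, ih]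

omit [IsChowProj C] [IsWeilProj H] in
lemma AlbKernel.zero' (S : 𝒱.Obj) : AlbKernel H S (0 : C.A S) :=
  ⟨HomTriv.zero, fun _ _ _ => by
    rw [C.act_apply, map_zero, mul_zero, map_zero]⟩

/-- One generator is a special case of countably many generators. -/
lemma countably_of_one {P : (V : 𝒱.Obj) → ℕ → C.A V → Prop} (h : OneGenerator H P S) :
    CountablyGenerated H P S := by
  obtain ⟨V, e, z, hz, hw⟩ := h
  refine ⟨Unit, Empty, inferInstance, inferInstance, fun _ => V, fun _ => e, fun _ => z,
    fun i => i.elim, fun i => i.elim, fun _ => hz, fun i => i.elim, fun w hw' => ?_⟩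
  obtain ⟨Γ, hΓ, rfl⟩ := hw w hw'
  exact Submodule.mem_sup_left (Submodule.subset_span ⟨(), Γ, hΓ, rfl⟩)

/-- The kernel of the Albanese map is generated by the class of the projector. -/
lemma one_of_projector {p : C.A (S.prod S)} (hp : IsTransc H S p) (hcl : H.cl p = 0) :
    OneGenerator H (HomTriv H) S := by
  refine ⟨S.prod S, 2, p, ⟨hp.deg, hcl⟩, fun w hw => ?_⟩
  refine ⟨C.comp (C.mulCorr (C.pull (fst S S) w)) (C.graph (snd S S)), ?_, ?_⟩
  · have hw2 : w ∈ C.gr S 2 := by
      have h := hw.1.1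
      rw [hp.dim] at h
      exact_mod_cast h
    have h1 : C.mulCorr (C.pull (fst S S) w) ∈ C.gr _ (((S.prod S).dim : ℤ) + 2) :=
      mulCorr_mem (C.pull_mem _ hw2)
    have h2 : C.graph (snd S S) ∈ C.gr ((S.prod S).prod S) (((S.prod S).dim : ℤ) + (-2)) := by
      have h := C.push_mem (Obj.lift (𝟙 (S.prod S)) (snd S S)) (C.one_mem (S.prod S))
      have e : (0 : ℤ) + 1 * ((((S.prod S).prod S).dim : ℤ) - ((S.prod S).dim : ℤ)) =
          ((S.prod S).dim : ℤ) + (-2) := by
        rw [dim_prod (S.prod S), dim_prod S S, hp.dim]; norm_num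
      rwa [e] at h
    have h3 := comp_mem C h1 h2
    have e : ((S.prod S).dim : ℤ) + (2 + -2) = ((S.prod S).dim : ℤ) + 2 - (2 : ℕ) := by
      push_cast; ring
    rw [e] at h3; exact h3
  · rw [C.act_comp, C.act_mulCorr, C.act_graph]
    have h := hp.fix w hw
    rw [C.act_apply, ch_comm C p] at h
    exact h.symm

theorem final (hP : Principles H) (S : 𝒱.Obj) (p : C.A (S.prod S)) (hp : IsTransc H S p) :
    [H.cl p = 0, OneGenerator H (HomTriv H) S, CountablyGenerated H (HomTriv H) S].TFAE ∧
    [∀ w, AlbKernel H S w → w = 0, FinitelyGenerated H S, OneGenerator H (AlgTriv H) S,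
      CountablyGenerated H (AlgTriv H) S].TFAE := by
  constructor
  · tfae_have 1 → 2 := one_of_projector hp
    tfae_have 2 → 3 := countably_of_one
    tfae_have 3 → 1 := by
      intro h
      exact (projector_mem hP.spreading (P := HomTriv H) (fun V e z hz => hz.1)
        (fun V W e j Γ z hΓ hz => hz.act hΓ) (fun V e z z' h h' => h.add h')
        (fun V e => HomTriv.zero) (fun V e q z h => h.smul q) hp h).2
    tfae_finish
  · have hAzero : ∀ (V : 𝒱.Obj) (e : ℕ), AlgTriv H V e (0 : C.A V) := by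
      intro V e
      have h1 := hP.moving S 0 HomTriv.zero
      obtain ⟨T, Γ, a, hT, -⟩ := h1
      exact ⟨T, 0, 0, hT, zero_mem _, HomTriv.zero, (C.act_zero 0).symm⟩
    have hS2 : ∀ w, AlbKernel H S w → AlgTriv H S 2 w := by
      intro w hw
      have := hP.moving S w hw.1
      rwa [hp.dim] at this
    tfae_have 1 → 2 := by
      intro h
      exact ⟨0, fun i => i.elim0, fun i => i.elim0, fun w hw => ⟨fun i => i.elim0,
        fun i => i.elim0, by rw [h w hw, Finset.univ_eq_empty, Finset.sum_empty]⟩⟩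
    tfae_have 1 → 3 := by
      intro h
      refine ⟨S, 2, 0, hAzero S 2, fun w hw => ⟨0, zero_mem _, ?_⟩⟩
      rw [h w hw, C.act_zero]
    tfae_have 2 → 4 := by
      rintro ⟨m, z, hz, hw⟩
      refine ⟨Fin m, Empty, inferInstance, inferInstance, fun _ => S, fun _ => 2, z,
        fun i => i.elim, fun i => i.elim, fun i => hS2 _ (hz i), fun i => i.elim, fun w hw' => ?_⟩
      obtain ⟨Γ, hΓ, rfl⟩ := hw w hw'
      refine Submodule.mem_sup_left (Submodule.sum_mem _ fun i _ =>
        Submodule.subset_span ⟨i, Γ i, ?_, rfl⟩)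
      have e : (S.dim : ℤ) + (2 : ℕ) - (2 : ℕ) = 2 := by rw [hp.dim]; norm_num
      rw [e]; exact hΓ i
    tfae_have 3 → 4 := countably_of_one
    tfae_have 4 → 1 := by
      intro h w hw
      have h1 := projector_mem hP.spreading (P := AlgTriv H) (fun V e z hz => hz.homTriv.1)
        (fun V W e j Γ z hΓ hz => AlgTriv.act hΓ hz) (fun V e z z' h h' => hP.add V e z z' h h')
        hAzero (fun V e q z h => h.smul q) hp h
      have h2 : AlgTriv H (S.prod S) S.dim p := by rw [hp.dim]; exact h1
      obtain ⟨N, hN⟩ := hP.nilpotent S p h2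
      have h3 := compList_idem (C := C) hp.idem N
      rw [hN, comp_zero] at h3
      rw [← hp.fix w hw, ← h3, C.act_zero]
    tfae_finish

end Pool.Agent.Q28.FG
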