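import Pool.Agent.Q28.AL.Main
import Pool.Agent.Q28.FG.Main
import Pool.Agent.Q28.FG.HDefs

/-!
# Generation of cycles of low dimension under correspondences: proofs
-/

open CategoryTheory AlgebraicGeometry

universe u v w

namespace Pool.Agent.Q28.FG

set_option linter.unusedSectionVars false

open Pool.Agent.H914 Pool.Agent.H914.VarClass Pool.Agent.H914.VarClass.Obj Pool.Agent.W492.BB
  Pool.Agent.W550.Corr Pool.Agent.TH133 Pool.Agent.Q28.PV Pool.Agent.Q28.AL

variable {k : Type u} [Field k] {𝒱 : VarClass k} {C : TheoryData.{u, v, 0} 𝒱 ℚ} [IsChowProj C]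
  {K : Type w} [Field K] {H : WeilTheoryData.{u, v, w} C K} [IsWeilProj H] {X Y Z T S B D : 𝒱.Obj}

lemma comp_ext_left (a : C.A X) (b : C.A Y) (Δ : C.A (Y.prod Z)) :
    C.comp (C.ext a b) Δ = C.ext a (C.act Δ b) := by
  rw [comp_eq_extR, C.extR_ext]
  intro c
  exact ch_comm C _ _

lemma comp_ext_right (Γ : C.A (X.prod Y)) (a : C.A Y) (b : C.A Z) :
    C.comp Γ (C.ext a b) = C.ext (C.act (tp C Γ) a) b := by
  have h : tp C (C.comp Γ (C.ext a b)) = C.ext b (C.act (tp C Γ) a) := by
    rw [tp_comp C (ch_comm C), tp_ext, comp_ext_left]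
  rw [← tp_tp C (C.comp Γ (C.ext a b)), h, tp_ext]

/-- Closure properties of a property of cycle classes. -/
structure Closed (P : (V : 𝒱.Obj) → ℕ → C.A V → Prop) : Prop where
  deg : ∀ V e z, P V e z → C.Deg e z
  act : ∀ (V W : 𝒱.Obj) (e j : ℕ) (Γ : C.A (V.prod W)) (z : C.A V),
    C.Deg ((V.dim : ℤ) + j - e) Γ → P V e z → P W j (C.act Γ z)
  add : ∀ V e z z', P V e z → P V e z' → P V e (z + z')
  zero : ∀ V e, P V e 0
  smul : ∀ V e (q : ℚ) z, P V e z → P V e (q • z)

variable {P : (V : 𝒱.Obj) → ℕ → C.A V → Prop}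

lemma generated_closed (hP : Closed P) {ι : Type} {V : ι → 𝒱.Obj} {e : ι → ℕ} {z : ∀ i, C.A (V i)}
    (hz : ∀ i, P (V i) (e i) (z i)) {j : ℕ} {w : C.A T} (hw : w ∈ generated C e z T j) :
    P T j w := by
  induction hw using Submodule.span_induction with
  | mem y hy =>
    obtain ⟨i, Γ, hΓ, rfl⟩ := hy
    exact hP.act _ _ _ _ _ _ hΓ (hz i)
  | zero => exact hP.zero _ _
  | add y y' _ _ hy hy' => exact hP.add _ _ _ _ hy hy'
  | smul a y _ hy => exact hP.smul _ _ _ _ hy

/-- Composition from the left preserves the property. -/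
lemma comp_closed (hP : Closed P) {x : C.A (Y.prod B)} {g : C.A (B.prod T)} {e j : ℕ} {i : ℤ}
    (hx : C.Deg i x) (hij : i + e = (B.dim : ℤ) + j) (hg : P (B.prod T) e g) :
    P (Y.prod T) j (C.comp x g) := by
  have h1 : C.comp x g = C.act (tens C (tp C x) (dg C T)) g := by
    rw [act_tens C (ch_comm C), tp_tp, comp_dg]
  rw [h1]
  refine hP.act _ _ _ _ _ _ ?_ hg
  have h2 := tens_mem C (tp_mem C hx) (dg_mem C T)
  have e1 : ((B.prod T).dim : ℤ) + j - e = i + T.dim := by
    rw [dim_prod]; push_cast; linarith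
  rw [e1]; exact h2

/-- One step of the decomposition. -/
lemma step (hsp : Spreading C) (hP : Closed P) {X : 𝒱.Obj} {c : ℕ}
    (hg : CountablyGeneratedUpTo H P X c) {D : 𝒱.Obj} {α : C.A (D.prod X)}
    (hD : X.dim < D.dim + c) (hα : C.Deg D.dim α) :
    ∃ (w : C.A X) (g s : C.A (D.prod X)), C.Deg D.dim w ∧ P (D.prod X) D.dim g ∧
      s ∈ overDivisors C D X D.dim ∧ α = C.ext 1 w + g + s := by
  obtain ⟨ι, _, V, e, z, hz, hgen⟩ := hg D.dim hD
  obtain ⟨o, ho, hd⟩ := exists_point (C := C) D
  have hα0 : α ∈ C.gr (D.prod X) ((D.dim : ℤ) + 0) := by rw [add_zero]; exact hα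
  have hw : C.Deg D.dim (C.act α o) := by
    have h := act_mem' C hα0 ho
    rwa [add_zero] at h
  have hΓ : C.Deg (D.dim : ℕ) (α - C.ext (1 : C.A D) (C.act α o)) := by
    refine Submodule.sub_mem _ hα ?_
    have h := ext_mem' (C := C) (C.one_mem D) hw
    rwa [zero_add] at h
  obtain ⟨B, f, q, hB, hq, hf, hmem⟩ := hsp ι Empty V e z (fun i => i.elim) D X D.dim
    (fun i => i.elim) _ (fun i => hP.deg _ _ _ (hz i)) (fun i => i.elim) hΓ (fun y hy => by
      obtain ⟨r, hr⟩ := exists_hasDegree (C := C) hy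
      refine Submodule.mem_sup_left (hgen _ ?_)
      have h1 : C.act (α - C.ext (1 : C.A D) (C.act α o)) y = C.act α (y - r • o) := by
        rw [C.act_sub α, act_ext' (C := C) (v := (1 : C.A D)) (x := y) (q := r)
          (by rw [one_mul]; exact hr), act_map_sub, act_map_smul]
      rw [h1]
      refine (homTriv_sub hy hr ho hd).act ?_
      have e1 : (D.dim : ℤ) + D.dim - D.dim = D.dim := by ring
      rw [e1]; exact hα)
  obtain ⟨gm, hgm, s, hs, hsum⟩ := Submodule.mem_sup.1 hmem
  obtain ⟨g, hgg, m, hm, hgms⟩ := Submodule.mem_sup.1 hgm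
  have hm0 : m = 0 := by
    have : throughFixed C (κ := Empty) (U := fun i => i.elim) (T := X) (fun i => i.elim) B ≤ ⊥ := by
      refine Submodule.span_le.2 ?_
      rintro g ⟨i, -⟩
      exact i.elim
    exact (Submodule.mem_bot _).1 (this hm)
  have hg1 : P (B.prod X) D.dim g := generated_closed hP hz hgg
  have hcof : C.Deg D.dim (C.cograph f) := cograph_mem f
  have hg2 : P (D.prod X) D.dim (C.comp (C.cograph f) g) :=
    comp_closed hP hcof (by rw [hB]) hg1
  have hs2 : C.comp (C.cograph f) s ∈ overDivisors C D X D.dim := by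
    clear hsum
    induction hs using Submodule.span_induction with
    | mem y hy =>
      obtain ⟨D', β, α', hD', hβ, hα', rfl⟩ := hy
      refine Submodule.subset_span ⟨D', C.comp (C.cograph f) β, α', by rw [hD', hB], ?_, hα',
        (comp_assoc C _ _ _).symm⟩
      have h1 : C.cograph f ∈ C.gr (D.prod B) ((D.dim : ℤ) + 0) := by rw [add_zero]; exact hcof
      have h2 : β ∈ C.gr (B.prod D') ((B.dim : ℤ) + 0) := by rw [add_zero]; exact hβ
      have h3 := comp_mem C h1 h2
      rw [add_zero, add_zero] at h3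
      exact h3
    | zero => rw [comp_zero]; exact Submodule.zero_mem _
    | add y y' _ _ hy hy' => rw [comp_add]; exact Submodule.add_mem _ hy hy'
    | smul a y _ hy => rw [comp_smul']; exact Submodule.smul_mem _ _ hy
  have e4 : C.comp (C.cograph f) (C.comp (C.graph f) (α - C.ext (1 : C.A D) (C.act α o))) =
      q • (α - C.ext (1 : C.A D) (C.act α o)) := by
    rw [← comp_assoc C (C.cograph f), cograph_comp_graph hf, smul_comp', dg_comp]
  rw [← hsum, ← hgms, hm0, add_zero, comp_add] at e4
  refine ⟨C.act α o, q⁻¹ • C.comp (C.cograph f) g, q⁻¹ • C.comp (C.cograph f) s, hw,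
    hP.smul _ _ _ _ hg2, Submodule.smul_mem _ _ hs2, ?_⟩
  have e5 : α - C.ext (1 : C.A D) (C.act α o) =
      q⁻¹ • C.comp (C.cograph f) g + q⁻¹ • C.comp (C.cograph f) s := by
    rw [← smul_add, e4, smul_smul, inv_mul_cancel₀ hq, one_smul]
  rw [add_assoc, ← e5]
  abel

/-- The decomposition of the diagonal. -/
theorem decompose (hsp : Spreading C) (hP : Closed P) {X : 𝒱.Obj} {c : ℕ}
    (hg : CountablyGeneratedUpTo H P X c) : ∀ m ≤ c,
      ∃ E ∈ lowSplit C X m ⊔ overCodim C X m, ∃ G, P (X.prod X) X.dim G ∧ dg C X = E + G := by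
  intro m
  induction m with
  | zero =>
    intro _
    refine ⟨dg C X, Submodule.mem_sup_right (Submodule.subset_span ⟨X, dg C X, dg C X, rfl,
      dg_mem C X, ?_, (comp_dg C _).symm⟩), 0, hP.zero _ _, (add_zero _).symm⟩
    have := dg_mem C X
    simpa using this
  | succ m ih =>
    intro hm
    obtain ⟨E, hE, G, hG, hsum⟩ := ih (by omega)
    obtain ⟨E1, hE1, E2, hE2, hE12⟩ := Submodule.mem_sup.1 hE
    have key : ∀ E2 ∈ overCodim C X m, ∃ E' ∈ lowSplit C X (m + 1) ⊔ overCodim C X (m + 1),
        ∃ G', P (X.prod X) X.dim G' ∧ E2 = E' + G' := by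
      intro E2 hE2
      induction hE2 using Submodule.span_induction with
      | mem y hy =>
        obtain ⟨D, β, α, hD, hβ, hα, rfl⟩ := hy
        have hDX : (X.dim : ℤ) - m = D.dim := by rw [← hD]; push_cast; ring
        rw [hDX] at hα
        obtain ⟨w, g, s, hw, hgP, hs, hα'⟩ := step hsp hP hg (D := D) (α := α) (by omega) hα
        refine ⟨C.ext (C.act (tp C β) 1) w + C.comp β s, ?_, C.comp β g, ?_, ?_⟩
        · refine Submodule.add_mem _ (Submodule.mem_sup_left (Submodule.subset_span
            ⟨m, _, w, by omega, ?_, ?_, rfl⟩)) (Submodule.mem_sup_right ?_)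
          · have h1 : tp C β ∈ C.gr (D.prod X) ((D.dim : ℤ) + (X.dim - D.dim)) := by
              have e : (D.dim : ℤ) + (X.dim - D.dim) = X.dim := by ring
              rw [e]; exact tp_mem C hβ
            have h2 := act_mem' C h1 (C.one_mem D)
            have e : (0 : ℤ) + (X.dim - D.dim) = m := by rw [← hD]; push_cast; ring
            rw [e] at h2; exact h2
          · rw [hDX]; exact hw
          · clear hα'
            induction hs using Submodule.span_induction with
            | mem y hy =>
              obtain ⟨D', β', α', hD', hβ', hα', rfl⟩ := hy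
              refine Submodule.subset_span ⟨D', C.comp β β', α', by omega, ?_, ?_,
                (comp_assoc C _ _ _).symm⟩
              · have h1 : β ∈ C.gr (X.prod D) ((X.dim : ℤ) + 0) := by rw [add_zero]; exact hβ
                have h2 : β' ∈ C.gr (D.prod D') ((D.dim : ℤ) + 0) := by rw [add_zero]; exact hβ'
                have h3 := comp_mem C h1 h2
                rw [add_zero, add_zero] at h3
                exact h3
              · have e : (X.dim : ℤ) - (m + 1 : ℕ) = (D.dim : ℕ) - 1 := by
                  rw [← hDX]; push_cast; ring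
                rw [e]; exact hα'
            | zero => rw [comp_zero]; exact Submodule.zero_mem _
            | add y y' _ _ hy hy' => rw [comp_add]; exact Submodule.add_mem _ hy hy'
            | smul a y _ hy => rw [comp_smul']; exact Submodule.smul_mem _ _ hy
        · exact comp_closed hP (e := D.dim) (j := X.dim) hβ (by ring) hgP
        · rw [hα', comp_add, comp_add, comp_ext_right]
          abel
      | zero => exact ⟨0, Submodule.zero_mem _, 0, hP.zero _ _, (add_zero _).symm⟩
      | add y y' _ _ hy hy' =>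
        obtain ⟨a, ha, b, hb, rfl⟩ := hy
        obtain ⟨a', ha', b', hb', rfl⟩ := hy'
        exact ⟨a + a', Submodule.add_mem _ ha ha', b + b', hP.add _ _ _ _ hb hb', by abel⟩
      | smul r y _ hy =>
        obtain ⟨a, ha, b, hb, rfl⟩ := hy
        exact ⟨r • a, Submodule.smul_mem _ _ ha, r • b, hP.smul _ _ _ _ hb, smul_add _ _ _⟩
    obtain ⟨E', hE', G', hG', hE2'⟩ := key E2 hE2
    refine ⟨E1 + E', Submodule.add_mem _ ?_ hE', G' + G, hP.add _ _ _ _ hG' hG, ?_⟩
    · refine Submodule.mem_sup_left (Submodule.span_mono ?_ hE1)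
      rintro g ⟨i, v, w, hi, h⟩
      exact ⟨i, v, w, by omega, h⟩
    · rw [hsum, ← hE12, hE2']
      abel

/-- The decomposed part acts as zero on homologically trivial cycles of low dimension. -/
lemma lowSplit_act {c j : ℕ} {E : C.A (X.prod X)} (hE : E ∈ lowSplit C X c) {z : C.A X}
    (hz : HomTriv H X j z) : C.act E z = 0 := by
  induction hE using Submodule.span_induction with
  | mem y hy =>
    obtain ⟨i, v, w, hi, hv, hw, rfl⟩ := hy
    have h1 : v * z ∈ C.gr X ((i : ℤ) + j) := C.mul_mem hv hz.1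
    by_cases hij : (i : ℤ) + j = X.dim
    · rw [hij] at h1
      have h2 : H.cl (v * z) = 0 := by rw [map_mul, hz.2, mul_zero]
      rw [act_ext' (hasDegree_zero_of_cl H h1 h2), zero_smul]
    · exact act_ext_zero_of_lt h1 hij
  | zero => exact C.act_zero z
  | add y y' _ _ hy hy' => rw [C.act_add, hy, hy', add_zero]
  | smul a y _ hy => rw [C.act_apply, smul_mul_assoc, map_smul, ← C.act_apply, hy, smul_zero]

lemma overCodim_act {c j : ℕ} (hj : X.dim < j + c) {E : C.A (X.prod X)}
    (hE : E ∈ overCodim C X c) {z : C.A X} (hz : C.Deg j z) : C.act E z = 0 := by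
  induction hE using Submodule.span_induction with
  | mem y hy =>
    obtain ⟨D, β, α, hD, hβ, hα, rfl⟩ := hy
    have h1 : β ∈ C.gr (X.prod D) ((X.dim : ℤ) + 0) := by rw [add_zero]; exact hβ
    have h2 := act_mem' C h1 hz
    rw [C.act_comp, IsChowProj.gr_top D _ _ h2 (by rw [add_zero]; omega), C.act_map_zero]
  | zero => exact C.act_zero z
  | add y y' _ _ hy hy' => rw [C.act_add, hy, hy', add_zero]
  | smul a y _ hy => rw [C.act_apply, smul_mul_assoc, map_smul, ← C.act_apply, hy, smul_zero]

lemma dec_act {c j : ℕ} (hj : X.dim < j + c) {E : C.A (X.prod X)}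
    (hE : E ∈ lowSplit C X c ⊔ overCodim C X c) {z : C.A X} (hz : HomTriv H X j z) :
    C.act E z = 0 := by
  obtain ⟨E1, h1, E2, h2, rfl⟩ := Submodule.mem_sup.1 hE
  rw [C.act_add, lowSplit_act h1 hz, overCodim_act hj h2 hz.1, add_zero]

/-- The value `G_* z` as the image of `G` under a correspondence determined by `z`. -/
lemma act_as_image {j : ℕ} (G : C.A (X.prod X)) {z : C.A X} (hz : C.Deg j z) :
    ∃ Γ : C.A ((X.prod X).prod X), C.Deg (((X.prod X).dim : ℤ) + j - (X.dim : ℕ)) Γ ∧
      C.act G z = C.act Γ G := by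
  refine ⟨C.comp (C.mulCorr (C.pull (fst X X) z)) (C.graph (snd X X)), ?_, ?_⟩
  · have h1 : C.mulCorr (C.pull (fst X X) z) ∈ C.gr _ (((X.prod X).dim : ℤ) + j) :=
      mulCorr_mem (C.pull_mem _ hz)
    have h2 : C.graph (snd X X) ∈
        C.gr ((X.prod X).prod X) (((X.prod X).dim : ℤ) + (X.dim - (X.prod X).dim)) := by
      have h := graph_mem (C := C) (snd X X)
      have e : ((X.prod X).dim : ℤ) + (X.dim - (X.prod X).dim) = X.dim := by ring
      rwa [e]
    have h3 := comp_mem C h1 h2
    have e : ((X.prod X).dim : ℤ) + ((j : ℤ) + (X.dim - (X.prod X).dim)) =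
        ((X.prod X).dim : ℤ) + j - (X.dim : ℕ) := by
      rw [dim_prod]; push_cast; ring
    rw [e] at h3; exact h3
  · rw [C.act_comp, C.act_mulCorr, C.act_graph, C.act_apply, ch_comm C G]

lemma compList_fix {G : C.A (X.prod X)} {z : C.A X} (h : C.act G z = z) (N : ℕ) :
    C.act (compList C X (List.replicate N G)) z = z := by
  induction N with
  | zero => exact act_dg C z
  | succ N ih =>
    rw [List.replicate_succ, compList, C.act_comp, h, ih]

section main

lemma homTriv_closed : Closed (HomTriv H) where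
  deg := fun V e z hz => hz.1
  act := fun V W e j Γ z hΓ hz => hz.act hΓ
  add := fun V e z z' h h' => h.add h'
  zero := fun V e => HomTriv.zero
  smul := fun V e q z h => h.smul q

lemma algTriv_closed (hP : Principles H) (S : 𝒱.Obj) : Closed (AlgTriv H) where
  deg := fun V e z hz => hz.homTriv.1
  act := fun V W e j Γ z hΓ hz => AlgTriv.act hΓ hz
  add := fun V e z z' h h' => hP.add V e z z' h h'
  zero := by
    intro V e
    obtain ⟨T, Γ, a, hT, -⟩ := hP.moving S 0 HomTriv.zero
    exact ⟨T, 0, 0, hT, zero_mem _, HomTriv.zero, (C.act_zero 0).symm⟩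
  smul := fun V e q z h => h.smul q

lemma bloch_of_countable (hP : Principles H) {X : 𝒱.Obj} {c : ℕ}
    (h : CountablyGeneratedUpTo H (AlgTriv H) X c) : BlochUpTo H X c := by
  intro j z hj hz
  obtain ⟨E, hE, G, hG, hsum⟩ := decompose hP.spreading (algTriv_closed hP X) h c le_rfl
  obtain ⟨N, hN⟩ := hP.nilpotent X G hG
  have h1 : C.act G z = z := by
    have h2 : C.act (dg C X) z = z := act_dg C z
    rw [hsum, C.act_add, dec_act hj hE hz, zero_add] at h2
    exact h2
  have h3 := compList_fix h1 N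
  rw [hN, C.act_zero] at h3
  exact h3.symm

lemma countable_of_one {X : 𝒱.Obj} {c : ℕ} (h : OneGeneratorUpTo H P X c) :
    CountablyGeneratedUpTo H P X c := by
  obtain ⟨V, e, g, hg, hz⟩ := h
  intro j hj
  refine ⟨Unit, inferInstance, fun _ => V, fun _ => e, fun _ => g, fun _ => hg, fun z hz' => ?_⟩
  obtain ⟨Γ, hΓ, rfl⟩ := hz j z hj hz'
  exact Submodule.subset_span ⟨(), Γ, hΓ, rfl⟩

lemma bloch_of_finite (hP : Principles H) {X : 𝒱.Obj} (c : ℕ) :
    FinitelyGeneratedUpTo H X c → BlochUpTo H X c := by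
  induction c with
  | zero =>
    intro _ j z hj hz
    exact IsChowProj.gr_top X _ _ hz.1 (by omega)
  | succ c ih =>
    intro h
    have hB : BlochUpTo H X c := ih fun j hj => h j (by omega)
    have hcl := algTriv_closed hP X
    obtain ⟨E, hE, G, hG, hsum⟩ := decompose hP.spreading hcl (c := c) (H := H) (X := X)
      (fun j hj => ⟨Empty, inferInstance, fun i => i.elim, fun i => i.elim, fun i => i.elim,
        fun i => i.elim, fun z hz => by rw [hB j z hj hz]; exact Submodule.zero_mem _⟩) c le_rfl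
    have halg : ∀ j z, X.dim = j + c → HomTriv H X j z → AlgTriv H X j z := by
      intro j z hj hz
      have h2 : C.act (dg C X) z = z := act_dg C z
      rw [hsum, C.act_add] at h2
      obtain ⟨E1, h1, E2, hE2, rfl⟩ := Submodule.mem_sup.1 hE
      rw [C.act_add, lowSplit_act h1 hz, zero_add] at h2
      rw [← h2]
      refine hP.add _ _ _ _ ?_ ?_
      · clear h2 hsum hE
        induction hE2 using Submodule.span_induction with
        | mem y hy =>
          obtain ⟨D, β, α, hD, hβ, hα, rfl⟩ := hy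
          have hDj : D.dim = j := by omega
          rw [C.act_comp]
          have h3 : HomTriv H D D.dim (C.act β z) := by
            refine hz.act ?_
            have e : (X.dim : ℤ) + D.dim - j = X.dim := by rw [hDj]; ring
            rw [e]; exact hβ
          refine AlgTriv.act ?_ (hP.moving D _ h3)
          have e : (D.dim : ℤ) + j - D.dim = (X.dim : ℤ) - c := by rw [hj]; push_cast; ring
          rw [e]; exact hα
        | zero => rw [C.act_zero]; exact hcl.zero _ _
        | add y y' _ _ hy hy' => rw [C.act_add]; exact hP.add _ _ _ _ hy hy'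
        | smul a y _ hy =>
          rw [C.act_apply, smul_mul_assoc, map_smul, ← C.act_apply]
          exact hcl.smul _ _ _ _ hy
      · obtain ⟨Γ, hΓ, he⟩ := act_as_image G hz.1
        rw [he]
        exact AlgTriv.act hΓ hG
    refine bloch_of_countable hP fun j hj => ?_
    by_cases hjc : X.dim < j + c
    · exact ⟨Empty, inferInstance, fun i => i.elim, fun i => i.elim, fun i => i.elim,
        fun i => i.elim, fun z hz => by rw [hB j z hjc hz]; exact Submodule.zero_mem _⟩
    · obtain ⟨m, g, hg, hgen⟩ := h j hj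
      refine ⟨Fin m, inferInstance, fun _ => X, fun _ => j, g,
        fun i => halg j _ (by omega) (hg i), fun z hz => ?_⟩
      obtain ⟨Γ, hΓ, rfl⟩ := hgen z hz
      refine Submodule.sum_mem _ fun i _ => Submodule.subset_span ⟨i, Γ i, ?_, rfl⟩
      have e : (X.dim : ℤ) + j - j = X.dim := by ring
      rw [e]; exact hΓ i

theorem main (hP : Principles H) (X : 𝒱.Obj) (c : ℕ) :
    [AlgebraicConiveau H X c, OneGeneratorUpTo H (HomTriv H) X c,
      CountablyGeneratedUpTo H (HomTriv H) X c].TFAE ∧
    [BlochUpTo H X c, FinitelyGeneratedUpTo H X c, OneGeneratorUpTo H (AlgTriv H) X c,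
      CountablyGeneratedUpTo H (AlgTriv H) X c].TFAE := by
  constructor
  · tfae_have 1 → 2 := by
      rintro ⟨E, hE, G, hG, hsum⟩
      refine ⟨X.prod X, X.dim, G, hG, fun j z hj hz => ?_⟩
      obtain ⟨Γ, hΓ, he⟩ := act_as_image G hz.1
      refine ⟨Γ, hΓ, ?_⟩
      rw [← he]
      have h2 : C.act (dg C X) z = z := act_dg C z
      rw [hsum, C.act_add, dec_act hj hE hz, zero_add] at h2
      exact h2.symm
    tfae_have 2 → 3 := countable_of_one
    tfae_have 3 → 1 := fun h => decompose hP.spreading homTriv_closed h c le_rfl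
    tfae_finish
  · tfae_have 1 → 2 := by
      intro h j hj
      exact ⟨0, fun i => i.elim0, fun i => i.elim0, fun z hz => ⟨fun i => i.elim0,
        fun i => i.elim0, by rw [h j z hj hz, Finset.univ_eq_empty, Finset.sum_empty]⟩⟩
    tfae_have 1 → 3 := by
      intro h
      refine ⟨X, 0, 0, (algTriv_closed hP X).zero _ _, fun j z hj hz => ⟨0, zero_mem _, ?_⟩⟩
      rw [h j z hj hz, C.act_zero]
    tfae_have 3 → 4 := countable_of_one
    tfae_have 2 → 1 := bloch_of_finite hP c
    tfae_have 4 → 1 := bloch_of_countable hP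
    tfae_finish

end main

end Pool.Agent.Q28.FG
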