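import Pool.Agent.Q28.AL.Main
import Pool.Agent.Q28.FG.Main
import Pool.Agent.Q28.FG.High
import Pool.Agent.Q28.FG.CDefs

/-!
# Generation of the image of a correspondence between surfaces: proofs
-/

open CategoryTheory AlgebraicGeometry

universe u v w

namespace Pool.Agent.Q28.FG

set_option linter.unusedSectionVars false

open Pool.Agent.H914 Pool.Agent.H914.VarClass Pool.Agent.H914.VarClass.Obj Pool.Agent.W492.BB
  Pool.Agent.W550.Corr Pool.Agent.TH133 Pool.Agent.Q28.PV Pool.Agent.Q28.AL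

variable {k : Type u} [Field k] {𝒱 : VarClass k} {C : TheoryData.{u, v, 0} 𝒱 ℚ} [IsChowProj C]
  {K : Type w} [Field K] {H : WeilTheoryData.{u, v, w} C K} [IsWeilProj H]
  {X Y Z T S B : 𝒱.Obj} {P : (V : 𝒱.Obj) → ℕ → C.A V → Prop}

/-- The part `t_2(S) → t_2(T)` of a correspondence. -/
noncomputable abbrev part (p : C.A (S.prod S)) (Φ : C.A (S.prod T)) (r : C.A (T.prod T)) :
    C.A (S.prod T) := C.comp (C.comp p Φ) r

variable {p : C.A (S.prod S)} {r : C.A (T.prod T)} {Φ : C.A (S.prod T)}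

lemma part_mem (hp : IsTransc H S p) (hr : IsTransc H T r) (hΦ : C.Deg 2 Φ) :
    C.Deg (2 : ℕ) (part p Φ r) := by
  have h1 : p ∈ C.gr (S.prod S) ((S.dim : ℤ) + 0) := by rw [hp.dim]; exact hp.deg
  have h2 : Φ ∈ C.gr (S.prod T) ((S.dim : ℤ) + 0) := by rw [hp.dim]; exact hΦ
  have h3 := comp_mem C h1 h2
  have h3' : C.comp p Φ ∈ C.gr (S.prod T) ((S.dim : ℤ) + 0) := by
    rw [add_zero] at h3 ⊢; exact h3
  have h4 : r ∈ C.gr (T.prod T) ((T.dim : ℤ) + 0) := by rw [hr.dim]; exact hr.deg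
  have h5 := comp_mem C h3' h4
  rw [hp.dim] at h5
  exact_mod_cast h5

lemma comp_part (hp : IsTransc H S p) : C.comp p (part p Φ r) = part p Φ r := by
  rw [part, ← comp_assoc, ← comp_assoc, hp.idem]

lemma part_comp (hr : IsTransc H T r) : C.comp (part p Φ r) r = part p Φ r := by
  rw [part, comp_assoc, hr.idem]

lemma part_act (hp : IsTransc H S p) (hr : IsTransc H T r) (hΦ : C.Deg 2 Φ) {y : C.A S}
    (hy : C.Deg 2 y) : C.act (part p Φ r) y = C.act Φ (C.act p y) := by
  rw [part, C.act_comp, C.act_comp]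
  refine hr.fix _ ((hp.maps y hy).act ?_)
  rw [hr.dim]; exact hΦ

lemma kernel_deg (hS : S.dim = 2) {w : C.A S} (hw : AlbKernel H S w) : C.Deg 2 w := by
  have h := hw.1.1
  rw [hS] at h
  exact_mod_cast h

lemma part_fix (hp : IsTransc H S p) (hr : IsTransc H T r) (hΦ : C.Deg 2 Φ) {w : C.A S}
    (hw : AlbKernel H S w) : C.act (part p Φ r) w = C.act Φ w := by
  rw [part_act hp hr hΦ (kernel_deg hp.dim hw), hp.fix w hw]

theorem part_closed (hsp : Spreading C) (hP : Closed P) (hp : IsTransc H S p)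
    (hr : IsTransc H T r) (hΦ : C.Deg 2 Φ) (hg : CountablyGeneratedImage H P Φ) :
    P (S.prod T) 2 (part p Φ r) := by
  obtain ⟨ι, κ, _, _, V, e, z, U, Ψ, hz, hΨ, hgen⟩ := hg
  obtain ⟨B, f, q, hB, hq, hf, hmem⟩ := hsp ι κ V e z U S T 2 Ψ (part p Φ r)
    (fun i => hP.deg _ _ _ (hz i)) hΨ (part_mem hp hr hΦ) fun y hy => by
      rw [hp.dim] at hy
      rw [part_act hp hr hΦ hy]
      exact hgen _ (hp.maps y hy)
  obtain ⟨gm, hgm, s, hs, hsum⟩ := Submodule.mem_sup.1 hmem
  obtain ⟨g, hgg, m, hm, hgms⟩ := Submodule.mem_sup.1 hgm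
  set x : C.A (S.prod B) := C.comp p (C.cograph f) with hx
  have hxm : C.Deg 2 x := by
    have h1 : p ∈ C.gr (S.prod S) ((S.dim : ℤ) + 0) := by
      rw [hp.dim]; exact hp.deg
    have h2 : C.cograph f ∈ C.gr (S.prod B) ((S.dim : ℤ) + 0) := by
      rw [add_zero]; exact cograph_mem f
    have h3 := comp_mem C h1 h2
    rw [hp.dim] at h3
    exact_mod_cast h3
  have e1 : C.comp x m = 0 := by
    clear hgms hgm
    induction hm using Submodule.span_induction with
    | mem y hy =>
      obtain ⟨i, ψ, hψ, rfl⟩ := hy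
      have h2 : C.comp (C.cograph f) ψ ∈ C.gr (S.prod (U i)) 1 := by
        have h3 : C.cograph f ∈ C.gr (S.prod B) ((S.dim : ℤ) + 0) := by
          rw [add_zero]; exact cograph_mem f
        have h4 : ψ ∈ C.gr (B.prod (U i)) ((B.dim : ℤ) + (1 - B.dim)) := by
          have e : (B.dim : ℤ) + (1 - B.dim) = 1 := by ring
          rw [e]; exact hψ
        have h5 := comp_mem C h3 h4
        have e : (S.dim : ℤ) + (0 + (1 - B.dim)) = 1 := by rw [hB]; ring
        rw [e] at h5; exact h5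
      rw [← comp_assoc, hx, comp_assoc C p, hp.left _ _ h2, zero_comp]
    | zero => exact comp_zero C x
    | add y y' _ _ hy hy' => rw [comp_add, hy, hy', add_zero]
    | smul a y _ hy => rw [comp_smul', hy, smul_zero]
  have e2 : C.comp s r = 0 := by
    clear hsum
    induction hs using Submodule.span_induction with
    | mem y hy =>
      obtain ⟨D, β, α, hD, hβ, hα, rfl⟩ := hy
      rw [comp_assoc, hr.right D α (by norm_num at hα; exact hα), comp_zero]
    | zero => exact zero_comp C r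
    | add y y' _ _ hy hy' => rw [add_comp, hy, hy', add_zero]
    | smul a y _ hy => rw [smul_comp', hy, smul_zero]
  have e3 : P (S.prod T) 2 (C.comp (C.comp x g) r) := by
    have h1 : P (B.prod T) 2 g := generated_closed hP hz hgg
    have h2 : P (S.prod T) 2 (C.comp x g) := comp_closed hP hxm (by rw [hB, hp.dim]; norm_num) h1
    have h3 : C.comp (C.comp x g) r = C.act (tens C (dg C S) r) (C.comp x g) := by
      rw [act_tens C (ch_comm C), tp_dg, dg_comp]
    rw [h3]
    refine hP.act _ _ _ _ _ _ ?_ h2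
    have h4 := tens_mem C (dg_mem C S) hr.deg
    have e : ((S.prod T).dim : ℤ) + (2 : ℕ) - (2 : ℕ) = (S.dim : ℤ) + 2 := by
      rw [dim_prod, hr.dim]; push_cast; ring
    rw [e]; exact h4
  have e4 : C.comp (C.comp x (C.comp (C.graph f) (part p Φ r))) r = q • part p Φ r := by
    rw [hx, comp_assoc C p, ← comp_assoc C (C.cograph f), cograph_comp_graph hf, smul_comp',
      dg_comp, comp_smul', comp_part hp, smul_comp', part_comp hr]
  rw [← hsum, ← hgms, comp_add, comp_add, e1, add_zero, add_comp, comp_assoc C x s, e2,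
    comp_zero, add_zero] at e4
  rw [e4] at e3
  have h := hP.smul _ _ q⁻¹ _ e3
  rwa [smul_smul, inv_mul_cancel₀ hq, one_smul] at h

lemma image_one_countable (h : OneGeneratorOfImage H P Φ) : CountablyGeneratedImage H P Φ := by
  obtain ⟨V, e, z, hz, hw⟩ := h
  refine ⟨Unit, Empty, inferInstance, inferInstance, fun _ => V, fun _ => e, fun _ => z,
    fun i => i.elim, fun i => i.elim, fun _ => hz, fun i => i.elim, fun w hw' => ?_⟩
  obtain ⟨Γ, hΓ, he⟩ := hw w hw'
  rw [he]
  exact Submodule.mem_sup_left (Submodule.subset_span ⟨(), Γ, hΓ, rfl⟩)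

lemma image_of_part (hp : IsTransc H S p) (hr : IsTransc H T r) (hΦ : C.Deg 2 Φ)
    (h : P (S.prod T) 2 (part p Φ r)) : OneGeneratorOfImage H P Φ := by
  refine ⟨S.prod T, 2, part p Φ r, h, fun w hw => ?_⟩
  refine ⟨C.comp (C.mulCorr (C.pull (fst S T) w)) (C.graph (snd S T)), ?_, ?_⟩
  · have h1 : C.mulCorr (C.pull (fst S T) w) ∈ C.gr _ (((S.prod T).dim : ℤ) + 2) :=
      mulCorr_mem (C.pull_mem _ (kernel_deg hp.dim hw))
    have h2 : C.graph (snd S T) ∈
        C.gr ((S.prod T).prod T) (((S.prod T).dim : ℤ) + (T.dim - (S.prod T).dim)) := by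
      have h := graph_mem (C := C) (snd S T)
      have e : ((S.prod T).dim : ℤ) + (T.dim - (S.prod T).dim) = T.dim := by ring
      rwa [e]
    have h3 := comp_mem C h1 h2
    have e : ((S.prod T).dim : ℤ) + ((2 : ℤ) + (T.dim - (S.prod T).dim)) =
        ((S.prod T).dim : ℤ) + 2 - (2 : ℕ) := by
      rw [dim_prod, hp.dim, hr.dim]; norm_num
    rw [e] at h3; exact h3
  · rw [C.act_comp, C.act_mulCorr, C.act_graph, ← part_fix hp hr hΦ hw, C.act_apply, ch_comm C _
      (C.pull (fst S T) w)]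

theorem corr_tfae (hsp : Spreading C) (hP : Closed P) (hp : IsTransc H S p)
    (hr : IsTransc H T r) (hΦ : C.Deg 2 Φ) :
    [P (S.prod T) 2 (C.comp (C.comp p Φ) r), OneGeneratorOfImage H P Φ,
      CountablyGeneratedImage H P Φ].TFAE := by
  tfae_have 1 → 2 := image_of_part hp hr hΦ
  tfae_have 2 → 3 := image_one_countable
  tfae_have 3 → 1 := part_closed hsp hP hp hr hΦ
  tfae_finish

/-- The iterates of a self-correspondence on the kernel of the Albanese map. -/
lemma iterate_part {Φ : C.A (S.prod S)} (hp : IsTransc H S p) (hΦ : C.Deg 2 Φ) (N : ℕ) :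
    ∀ {w : C.A S}, AlbKernel H S w →
      C.act (compList C S (List.replicate N (part p Φ p))) w =
        C.act (compList C S (List.replicate N Φ)) w := by
  induction N with
  | zero => intro w _; rfl
  | succ N ih =>
    intro w hw
    rw [List.replicate_succ, List.replicate_succ]
    change C.act (C.comp (part p Φ p) _) w = C.act (C.comp Φ _) w
    rw [C.act_comp (part p Φ p), C.act_comp Φ, part_fix hp hp hΦ hw,
      ih (hw.act (by rw [hp.dim]; exact hΦ))]

lemma finite_countable (hP : Principles H) {Φ : C.A (S.prod S)} (hS : S.dim = 2)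
    (h : FinitelyGeneratedImage H Φ) : CountablyGeneratedImage H (AlgTriv H) Φ := by
  obtain ⟨m, z, hz, hw⟩ := h
  refine ⟨Fin m, Empty, inferInstance, inferInstance, fun _ => S, fun _ => 2, z,
    fun i => i.elim, fun i => i.elim, fun i => ?_, fun i => i.elim, fun w hw' => ?_⟩
  · have := hP.moving S _ (hz i).1
    rwa [hS] at this
  · obtain ⟨Γ, hΓ, he⟩ := hw w hw'
    rw [he]
    refine Submodule.mem_sup_left (Submodule.sum_mem _ fun i _ =>
      Submodule.subset_span ⟨i, Γ i, ?_, rfl⟩)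
    have e : (S.dim : ℤ) + (2 : ℕ) - (2 : ℕ) = 2 := by rw [hS]; norm_num
    rw [e]; exact hΓ i

lemma nilpotent_of (hP : Principles H) {Φ : C.A (S.prod S)} (hp : IsTransc H S p)
    (hΦ : C.Deg 2 Φ) (h : CountablyGeneratedImage H (AlgTriv H) Φ) :
    ∃ N : ℕ, ∀ w, AlbKernel H S w → C.act (compList C S (List.replicate N Φ)) w = 0 := by
  have h1 := part_closed hP.spreading (algTriv_closed hP S) hp hp hΦ h
  have h2 : AlgTriv H (S.prod S) S.dim (part p Φ p) := by rw [hp.dim]; exact h1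
  obtain ⟨N, hN⟩ := hP.nilpotent S _ h2
  refine ⟨N, fun w hw => ?_⟩
  rw [← iterate_part hp hΦ N hw, hN, C.act_zero]

theorem corr_main (hP : Principles H) :
    (∀ (S T : 𝒱.Obj) (p : C.A (S.prod S)) (r : C.A (T.prod T)) (Φ : C.A (S.prod T)),
      IsTransc H S p → IsTransc H T r → C.Deg 2 Φ →
      [H.cl (C.comp (C.comp p Φ) r) = 0, OneGeneratorOfImage H (HomTriv H) Φ,
        CountablyGeneratedImage H (HomTriv H) Φ].TFAE ∧
      [AlgTriv H (S.prod T) 2 (C.comp (C.comp p Φ) r), OneGeneratorOfImage H (AlgTriv H) Φ,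
        CountablyGeneratedImage H (AlgTriv H) Φ].TFAE) ∧
    ∀ (S : 𝒱.Obj) (p : C.A (S.prod S)) (Φ : C.A (S.prod S)), IsTransc H S p → C.Deg 2 Φ →
      (FinitelyGeneratedImage H Φ → CountablyGeneratedImage H (AlgTriv H) Φ) ∧
      (CountablyGeneratedImage H (AlgTriv H) Φ →
        ∃ N : ℕ, ∀ w, AlbKernel H S w → C.act (compList C S (List.replicate N Φ)) w = 0) := by
  refine ⟨fun S T p r Φ hp hr hΦ => ⟨?_, ?_⟩, fun S p Φ hp hΦ => ⟨finite_countable hP hp.dim,
    nilpotent_of hP hp hΦ⟩⟩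
  · tfae_have 1 → 2 := fun h1 => image_of_part hp hr hΦ ⟨part_mem hp hr hΦ, h1⟩
    tfae_have 2 → 3 := image_one_countable
    tfae_have 3 → 1 := fun h3 => (part_closed hP.spreading homTriv_closed hp hr hΦ h3).2
    tfae_finish
  · exact corr_tfae hP.spreading (algTriv_closed hP S) hp hr hΦ

end Pool.Agent.Q28.FG
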