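import Pool.Agent.Q28.FG.Gen

/-!
# Graded pieces of a Bloch-Beilinson filtration on zero-cycles: definitions
-/

open CategoryTheory AlgebraicGeometry

universe u v w

namespace Pool.Agent.Q28.FG

open Pool.Agent.H914 Pool.Agent.H914.VarClass Pool.Agent.H914.VarClass.Obj Pool.Agent.W492.BB

variable {k : Type u} [Field k] {𝒱 : VarClass k} {C : TheoryData.{u, v, 0} 𝒱 ℚ}
  {K : Type w} [Field K] (H : WeilTheoryData.{u, v, w} C K)

/-- `F X l i` is the step `F^i CH^l(X)` of a filtration on the Chow groups with the conditions (ii)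
and (iii) of the problem: it is stable under correspondences, and homologically trivial
correspondences map `F^i` to `F^(i+1)`. (The other conditions (i) and (iv) on Bloch-Beilinson
filtrations are not used.) -/
structure IsBBFiltration (F : ∀ X : 𝒱.Obj, ℕ → ℕ → Submodule ℚ (C.A X)) : Prop where
  deg : ∀ (X : 𝒱.Obj) (l i : ℕ), ∀ z ∈ F X l i, C.Deg l z
  act : ∀ (X Y : 𝒱.Obj) (l m i : ℕ) (Z : C.A (X.prod Y)), C.Deg ((X.dim : ℤ) + m - l) Z →
    ∀ z ∈ F X l i, C.act Z z ∈ F Y m i ∧ (H.cl Z = 0 → C.act Z z ∈ F Y m (i + 1))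

/-- The self-correspondence `π` of `X` is a projector onto the graded piece `Gr^i CH_0(X)`: the image
of `CH_0(X)` is contained in `F^i CH_0(X)`, it acts as the identity on `F^i / F^(i+1)` and as zero on
`F^(i+1)`. (The projector `π_(2 dim X - i)` of a Chow-Kunneth decomposition of `X`, which exists by
the results of Jannsen.) -/
structure IsPieceProjector (F : ∀ X : 𝒱.Obj, ℕ → ℕ → Submodule ℚ (C.A X)) (X : 𝒱.Obj) (i : ℕ)
    (π : C.A (X.prod X)) : Prop where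
  deg : C.Deg X.dim π
  idem : C.comp π π = π
  maps : ∀ y : C.A X, C.Deg X.dim y → C.act π y ∈ F X X.dim i
  kills : ∀ w ∈ F X X.dim (i + 1), C.act π w = 0
  rest : ∀ w ∈ F X X.dim i, w - C.act π w ∈ F X X.dim (i + 1)

variable {H}

/-- `Z_* : Gr^i CH_0(X) → Gr^i CH_0(Y)` is zero. -/
def ZeroOnPiece (F : ∀ X : 𝒱.Obj, ℕ → ℕ → Submodule ℚ (C.A X)) (i : ℕ) {X Y : 𝒱.Obj}
    (Z : C.A (X.prod Y)) : Prop :=
  ∀ w ∈ F X X.dim i, C.act Z w ∈ F Y Y.dim (i + 1)

variable (H)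

/-- The image of `Gr^i CH_0(X)` in `Gr^i CH_0(Y)` is contained in the submodule generated by finitely
many zero-cycles `z l` of degree zero over the ring of self-correspondences of `Y`. -/
def FiniteOnPiece (F : ∀ X : 𝒱.Obj, ℕ → ℕ → Submodule ℚ (C.A X)) (i : ℕ) {X Y : 𝒱.Obj}
    (Z : C.A (X.prod Y)) : Prop :=
  ∃ (m : ℕ) (z : Fin m → C.A Y), (∀ l, C.Deg Y.dim (z l) ∧ H.cl (z l) = 0) ∧ ∀ w ∈ F X X.dim i,
    ∃ Γ : Fin m → C.A (Y.prod Y), (∀ l, C.Deg Y.dim (Γ l)) ∧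
      C.act Z w - ∑ l, C.act (Γ l) (z l) ∈ F Y Y.dim (i + 1)

/-- The image of `Gr^i CH_0(X)` in `Gr^i CH_0(Y)` is contained in the group generated by countably
many homologically trivial cycles `z l` on varieties `V l` under all correspondences. -/
def CountableOnPiece (F : ∀ X : 𝒱.Obj, ℕ → ℕ → Submodule ℚ (C.A X)) (i : ℕ) {X Y : 𝒱.Obj}
    (Z : C.A (X.prod Y)) : Prop :=
  ∃ (ι : Type) (_ : Countable ι) (V : ι → 𝒱.Obj) (e : ι → ℕ) (z : ∀ l, C.A (V l)),
    (∀ l, C.Deg (e l) (z l) ∧ H.cl (z l) = 0) ∧ ∀ w ∈ F X X.dim i,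
      ∃ u ∈ generated C e z Y Y.dim, C.act Z w - u ∈ F Y Y.dim (i + 1)

end Pool.Agent.Q28.FG
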