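import Pool.Agent.Q28.FG.PhDefs

/-!
# Kimura finite-dimensionality: definitions
-/

open CategoryTheory AlgebraicGeometry

universe u v w

namespace Pool.Agent.Q28.FG

open Pool.Agent.H914 Pool.Agent.H914.VarClass Pool.Agent.H914.VarClass.Obj Pool.Agent.W492.BB
  Pool.Agent.W550.Corr Pool.Agent.TH133 Pool.Agent.Q28.PV Pool.Agent.Q28.AL

variable {k : Type u} [Field k] {𝒱 : VarClass k} {C : TheoryData.{u, v, 0} 𝒱 ℚ}

/-- The projector `(1/n!) ∑ χ(σ) σ` composed with `p^(⊗ n)` on `Y = X^n` (with projections `pr i`),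
where `χ = sgn` (`s = -1`; the motive `Λ^n (X, p)`) or `χ = 1` (`s = 1`; the motive `Sym^n (X, p)`). -/
noncomputable def power {X Y : 𝒱.Obj} {n : ℕ} (pr : Fin n → (Y ⟶ X)) (s : ℤˣ)
    (p : C.A (X.prod X)) : C.A (Y.prod Y) :=
  ((n.factorial : ℚ)⁻¹) • ∑ σ : Equiv.Perm (Fin n),
    (if s = 1 then (1 : ℚ) else ((Equiv.Perm.sign σ : ℤ) : ℚ)) •
      (List.ofFn fun i => C.up (Obj.lift (fst Y Y ≫ pr i) (snd Y Y ≫ pr (σ i))) p).prod

/-- The variety `Y n` is the `n`-th power of `X` with projections `pr n i`: the only property used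
is that the exterior and symmetric powers of projectors of degree zero are projectors of degree
zero. -/
def ArePowers (C : TheoryData.{u, v, 0} 𝒱 ℚ) (X : 𝒱.Obj) (Y : ℕ → 𝒱.Obj)
    (pr : ∀ n, Fin n → (Y n ⟶ X)) : Prop :=
  ∀ (n : ℕ) (s : ℤˣ) (p : C.A (X.prod X)), C.Deg X.dim p → C.comp p p = p →
    C.Deg (Y n).dim (power (pr n) s p) ∧
      C.comp (power (pr n) s p) (power (pr n) s p) = power (pr n) s p

/-- The motive of `X` is the direct sum of motives `M_+ = (X, p)` and `M_- = (X, q)` such that for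
some `n` the motives `Λ^n M_+` and `Sym^n M_-` have the property `Q`. If `Q` is the vanishing of the
motive, then this is Kimura's finite-dimensionality of `X`. -/
def SplitsWith {X : 𝒱.Obj} {Y : ℕ → 𝒱.Obj} (pr : ∀ n, Fin n → (Y n ⟶ X))
    (Q : ∀ Z : 𝒱.Obj, C.A (Z.prod Z) → Prop) : Prop :=
  ∃ (p q : C.A (X.prod X)) (n : ℕ), C.Deg X.dim p ∧ C.Deg X.dim q ∧ C.comp p p = p ∧
    C.comp q q = q ∧ C.comp p q = 0 ∧ C.comp q p = 0 ∧ p + q = dg C X ∧
      Q (Y n) (power (pr n) (-1) p) ∧ Q (Y n) (power (pr n) 1 q)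

end Pool.Agent.Q28.FG
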