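import Pool.Agent.Q28.FG.Phantom
import Pool.Agent.Q28.FG.KDefs

/-!
# Kimura finite-dimensionality: proofs
-/

open CategoryTheory AlgebraicGeometry

universe u v w

namespace Pool.Agent.Q28.FG

set_option linter.unusedSectionVars false

open Pool.Agent.H914 Pool.Agent.H914.VarClass Pool.Agent.H914.VarClass.Obj Pool.Agent.W492.BB
  Pool.Agent.W550.Corr Pool.Agent.TH133 Pool.Agent.Q28.PV Pool.Agent.Q28.AL

variable {k : Type u} [Field k] {𝒱 : VarClass k} {C : TheoryData.{u, v, 0} 𝒱 ℚ} [IsChowProj C]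
  {K : Type w} [Field K] {H : WeilTheoryData.{u, v, w} C K} [IsWeilProj H]

lemma zero_gen (hP : Principles H) {X : 𝒱.Obj} {p : C.A (X.prod X)} (h : p = 0) :
    FinitelyGeneratedMotive p ∧ CountablyAlgGenerated H p := by
  have hz0 : ∀ {j z}, InMotive p j z → z = 0 := by
    intro j z hz
    rw [← hz.2, h, C.act_zero]
  refine ⟨fun j => ⟨0, fun i => i.elim0, fun i => i.elim0, fun z hz => ⟨fun i => i.elim0,
      fun i => i.elim0, by rw [hz0 hz, Finset.univ_eq_empty, Finset.sum_empty]⟩⟩, fun j => ?_⟩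
  exact ⟨Empty, inferInstance, fun i => i.elim, fun i => i.elim, fun i => i.elim, fun i => i.elim,
    fun z hz => by rw [hz0 hz]; exact Submodule.zero_mem _⟩

theorem kim_main (hP : Principles H) {X : 𝒱.Obj} {Y : ℕ → 𝒱.Obj} {pr : ∀ n, Fin n → (Y n ⟶ X)}
    (hY : ArePowers C X Y pr) :
    [SplitsWith (C := C) pr fun _ e => e = 0,
      SplitsWith (C := C) pr fun _ e => H.cl e = 0 ∧ FinitelyGeneratedMotive e,
      SplitsWith (C := C) pr fun _ e => CountablyAlgGenerated H e].TFAE := by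
  tfae_have 1 → 2 := by
    rintro ⟨p, q, n, h1, h2, h3, h4, h5, h6, h7, h8, h9⟩
    exact ⟨p, q, n, h1, h2, h3, h4, h5, h6, h7,
      ⟨by rw [h8, map_zero], (zero_gen hP h8).1⟩, ⟨by rw [h9, map_zero], (zero_gen hP h9).1⟩⟩
  tfae_have 2 → 1 := by
    rintro ⟨p, q, n, h1, h2, h3, h4, h5, h6, h7, h8, h9⟩
    have hp := hY n (-1) p h1 h3
    have hq := hY n 1 q h2 h4
    exact ⟨p, q, n, h1, h2, h3, h4, h5, h6, h7, zero_of_finite hP hp.1 hp.2 h8.1 h8.2,
      zero_of_finite hP hq.1 hq.2 h9.1 h9.2⟩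
  tfae_have 1 → 3 := by
    rintro ⟨p, q, n, h1, h2, h3, h4, h5, h6, h7, h8, h9⟩
    exact ⟨p, q, n, h1, h2, h3, h4, h5, h6, h7, (zero_gen hP h8).2, (zero_gen hP h9).2⟩
  tfae_have 3 → 1 := by
    rintro ⟨p, q, n, h1, h2, h3, h4, h5, h6, h7, h8, h9⟩
    have hp := hY n (-1) p h1 h3
    have hq := hY n 1 q h2 h4
    exact ⟨p, q, n, h1, h2, h3, h4, h5, h6, h7, zero_of_countable hP hp.1 hp.2 h8,
      zero_of_countable hP hq.1 hq.2 h9⟩
  tfae_finish

end Pool.Agent.Q28.FG
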