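import Pool.Agent.Q28.FG.Defs

/-!
# Finite generation of the Chow groups of a motive: definitions
-/

open CategoryTheory AlgebraicGeometry

universe u v w

namespace Pool.Agent.Q28.FG

open Pool.Agent.H914 Pool.Agent.H914.VarClass Pool.Agent.H914.VarClass.Obj Pool.Agent.W492.BB
  Pool.Agent.W550.Corr Pool.Agent.TH133 Pool.Agent.Q28.PV Pool.Agent.Q28.AL

variable {k : Type u} [Field k] {𝒱 : VarClass k} {C : TheoryData.{u, v, 0} 𝒱 ℚ}

/-- The class `z` lies in the Chow group `CH^j(M) = p_* CH^j(X)` of the motive `M = (X, p)`. -/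
def InMotive {X : 𝒱.Obj} (p : C.A (X.prod X)) (j : ℕ) (z : C.A X) : Prop :=
  C.Deg j z ∧ C.act p z = z

/-- For all `j` the Chow group `CH^j(M)` of the motive `M = (X, p)` is generated by finitely many
elements under the self-correspondences of `X` of degree zero. -/
def FinitelyGeneratedMotive {X : 𝒱.Obj} (p : C.A (X.prod X)) : Prop :=
  ∀ j : ℕ, ∃ (m : ℕ) (g : Fin m → C.A X), (∀ i, InMotive p j (g i)) ∧ ∀ z, InMotive p j z →
    ∃ Γ : Fin m → C.A (X.prod X), (∀ i, C.Deg X.dim (Γ i)) ∧ z = ∑ i, C.act (Γ i) (g i)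

variable {K : Type w} [Field K] (H : WeilTheoryData.{u, v, w} C K)

/-- There is one algebraically trivial cycle `g` on a variety `V` such that all elements of the Chow
groups of the motive `(X, p)` are of the form `Γ_* g`. -/
def OneAlgGenerator {X : 𝒱.Obj} (p : C.A (X.prod X)) : Prop :=
  ∃ (V : 𝒱.Obj) (e : ℕ) (g : C.A V), AlgTriv H V e g ∧ ∀ (j : ℕ) (z : C.A X), InMotive p j z →
    ∃ Γ : C.A (V.prod X), C.Deg ((V.dim : ℤ) + j - e) Γ ∧ z = C.act Γ g

/-- For all `j` the Chow group `CH^j(M)` of the motive `M = (X, p)` is contained in the group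
generated by countably many algebraically trivial cycles on varieties `V i` under all
correspondences. -/
def CountablyAlgGenerated {X : 𝒱.Obj} (p : C.A (X.prod X)) : Prop :=
  ∀ j : ℕ, ∃ (ι : Type) (_ : Countable ι) (V : ι → 𝒱.Obj) (e : ι → ℕ) (g : ∀ i, C.A (V i)),
    (∀ i, AlgTriv H (V i) (e i) (g i)) ∧ ∀ z, InMotive p j z → z ∈ generated C e g X j

end Pool.Agent.Q28.FG
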