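import Pool.Agent.Q28.FG.Piece
import Pool.Agent.Q28.FG.PhDefs

/-!
# Finite generation of the Chow groups of a motive: proofs
-/

open CategoryTheory AlgebraicGeometry

universe u v w

namespace Pool.Agent.Q28.FG

set_option linter.unusedSectionVars false

open Pool.Agent.H914 Pool.Agent.H914.VarClass Pool.Agent.H914.VarClass.Obj Pool.Agent.W492.BB
  Pool.Agent.W550.Corr Pool.Agent.TH133 Pool.Agent.Q28.PV Pool.Agent.Q28.AL

variable {k : Type u} [Field k] {𝒱 : VarClass k} {C : TheoryData.{u, v, 0} 𝒱 ℚ} [IsChowProj C]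
  {K : Type w} [Field K] {H : WeilTheoryData.{u, v, w} C K} [IsWeilProj H]
  {X Y Z T S B : 𝒱.Obj} {P : (V : 𝒱.Obj) → ℕ → C.A V → Prop}

/-- Composition from the right preserves the property. -/
lemma closed_comp (hP : Closed P) {g : C.A (Y.prod X)} {p : C.A (X.prod X)} {e : ℕ}
    (hp : C.Deg X.dim p) (hg : P (Y.prod X) e g) : P (Y.prod X) e (C.comp g p) := by
  have h1 : C.comp g p = C.act (tens C (dg C Y) p) g := by
    rw [act_tens C (ch_comm C), tp_dg, dg_comp]
  rw [h1]
  refine hP.act _ _ _ _ _ _ ?_ hg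
  have h2 := tens_mem C (dg_mem C Y) hp
  have e1 : ((Y.prod X).dim : ℤ) + e - e = Y.dim + X.dim := by
    rw [dim_prod]; push_cast; ring
  rw [e1]; exact h2

/-- Generation of the Chow group in one codimension by classes with the property `P`. -/
def GenAt (P : (V : 𝒱.Obj) → ℕ → C.A V → Prop) (p : C.A (X.prod X)) (j : ℕ) : Prop :=
  ∃ (ι : Type) (_ : Countable ι) (V : ι → 𝒱.Obj) (e : ι → ℕ) (g : ∀ i, C.A (V i)),
    (∀ i, P (V i) (e i) (g i)) ∧ ∀ z, InMotive p j z → z ∈ generated C e g X j

/-- The property reached after `m` steps. -/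
def Stage (P : (V : 𝒱.Obj) → ℕ → C.A V → Prop) (p : C.A (X.prod X)) (m : ℕ) : Prop :=
  ∃ E ∈ overCodim C X m, ∃ G, P (X.prod X) X.dim G ∧ p = G + E

lemma stage_zero (hP : Closed P) {p : C.A (X.prod X)} (hp : C.Deg X.dim p) : Stage P p 0 := by
  refine ⟨p, Submodule.subset_span ⟨X, dg C X, p, rfl, dg_mem C X, ?_, (dg_comp C _).symm⟩, 0,
    hP.zero _ _, (zero_add _).symm⟩
  simpa using hp

lemma stage_succ (hsp : Spreading C) (hP : Closed P) {p : C.A (X.prod X)} (hp : C.Deg X.dim p)
    (hidem : C.comp p p = p) {m j : ℕ} (hj : j + m = X.dim) (hg : GenAt P p j)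
    (h : Stage P p m) : Stage P p (m + 1) := by
  obtain ⟨E, hE, G, hG, hsum⟩ := h
  have key : ∀ E ∈ overCodim C X m, ∃ E' ∈ overCodim C X (m + 1), ∃ G', P (X.prod X) X.dim G' ∧
      C.comp E p = G' + E' := by
    intro E hE
    induction hE using Submodule.span_induction with
    | mem y hy =>
      obtain ⟨D, β, α, hD, hβ, hα, rfl⟩ := hy
      have hDj : D.dim = j := by omega
      have hDX : (X.dim : ℤ) - m = D.dim := by rw [← hD]; push_cast; ring
      rw [hDX] at hα
      obtain ⟨ι, _, V, e, g, hgP, hgen⟩ := hg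
      have hα0 : α ∈ C.gr (D.prod X) ((D.dim : ℤ) + 0) := by rw [add_zero]; exact hα
      have hp0 : p ∈ C.gr (X.prod X) ((X.dim : ℤ) + 0) := by rw [add_zero]; exact hp
      have hαp : C.Deg (D.dim : ℕ) (C.comp α p) := by
        have h3 := comp_mem C hα0 hp0
        rw [add_zero, add_zero] at h3
        exact h3
      have hαp' : C.comp α p ∈ C.gr (D.prod X) ((D.dim : ℤ) + 0) := by rw [add_zero]; exact hαp
      obtain ⟨G', s, hG', hs, he⟩ := spread_sum hsp hP hαp hgP (fun y hy => by
        rw [hDj]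
        refine hgen _ ⟨?_, ?_⟩
        · have h4 := act_mem' C hαp' hy
          rw [add_zero, hDj] at h4
          exact h4
        · rw [← C.act_comp, comp_assoc, hidem])
      refine ⟨C.comp β s, ?_, C.comp β G', comp_closed hP (e := D.dim) (j := X.dim) hβ
        (by ring) hG', by rw [comp_assoc, he, comp_add]⟩
      clear he
      induction hs using Submodule.span_induction with
      | mem y hy =>
        obtain ⟨D', β', α', hD', hβ', hα', rfl⟩ := hy
        refine Submodule.subset_span ⟨D', C.comp β β', α', by omega, ?_, ?_,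
          (comp_assoc C _ _ _).symm⟩
        · have h1 : β ∈ C.gr (X.prod D) ((X.dim : ℤ) + 0) := by rw [add_zero]; exact hβ
          have h2 : β' ∈ C.gr (D.prod D') ((D.dim : ℤ) + 0) := by rw [add_zero]; exact hβ'
          have h3 := comp_mem C h1 h2
          rw [add_zero, add_zero] at h3
          exact h3
        · have e : (X.dim : ℤ) - (m + 1 : ℕ) = (D.dim : ℕ) - 1 := by
            rw [← hDX]; push_cast; ring
          rw [e]; exact hα'
      | zero => rw [comp_zero]; exact Submodule.zero_mem _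
      | add y y' _ _ hy hy' => rw [comp_add]; exact Submodule.add_mem _ hy hy'
      | smul a y _ hy => rw [comp_smul']; exact Submodule.smul_mem _ _ hy
    | zero => exact ⟨0, Submodule.zero_mem _, 0, hP.zero _ _, by rw [zero_comp, add_zero]⟩
    | add y y' _ _ hy hy' =>
      obtain ⟨a, ha, b, hb, h1⟩ := hy
      obtain ⟨a', ha', b', hb', h2⟩ := hy'
      exact ⟨a + a', Submodule.add_mem _ ha ha', b + b', hP.add _ _ _ _ hb hb', by
        rw [add_comp, h1, h2]; abel⟩
    | smul r y _ hy =>
      obtain ⟨a, ha, b, hb, h1⟩ := hy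
      exact ⟨r • a, Submodule.smul_mem _ _ ha, r • b, hP.smul _ _ _ _ hb, by
        rw [smul_comp', h1, smul_add]⟩
  obtain ⟨E', hE', G', hG', he⟩ := key E hE
  refine ⟨E', hE', C.comp G p + G', hP.add _ _ _ _ (closed_comp hP hp hG) hG', ?_⟩
  have h1 : C.comp p p = C.comp G p + C.comp E p := by
    rw [← add_comp, ← hsum]
  rw [hidem, he, ← add_assoc] at h1
  exact h1

lemma stage_top (hP : Principles H) {p : C.A (X.prod X)} (hidem : C.comp p p = p)
    (h : Stage (AlgTriv H) p (X.dim + 1)) : p = 0 := by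
  obtain ⟨E, hE, G, hG, hsum⟩ := h
  have hE0 : E = 0 := by
    have : overCodim C X (X.dim + 1) ≤ ⊥ := by
      refine Submodule.span_le.2 ?_
      rintro g ⟨D, β, α, hD, -⟩
      omega
    exact (Submodule.mem_bot _).1 (this hE)
  rw [hE0, add_zero] at hsum
  rw [← hsum] at hG
  obtain ⟨N, hN⟩ := hP.nilpotent X p hG
  have h3 := compList_idem (C := C) hidem N
  rw [hN, comp_zero] at h3
  exact h3.symm

/-- Cycles of dimension `m` on a phantom are algebraically trivial after `m` steps. -/
lemma alg_of_stage (hP : Principles H) {p : C.A (X.prod X)} (hcl : H.cl p = 0) {m j : ℕ}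
    (hj : j + m = X.dim) (h : Stage (AlgTriv H) p m) {z : C.A X} (hz : InMotive p j z) :
    AlgTriv H X j z := by
  obtain ⟨E, hE, G, hG, hsum⟩ := h
  have hzh : HomTriv H X j z := by
    refine ⟨hz.1, ?_⟩
    rw [← hz.2, cl_act, hcl]
    exact H.toTheoryData.act_zero _
  have h2 := hz.2
  rw [hsum, C.act_add] at h2
  rw [← h2]
  refine hP.add _ _ _ _ ?_ ?_
  · obtain ⟨Γ, hΓ, he⟩ := act_as_image G hz.1
    rw [he]
    exact AlgTriv.act hΓ hG
  · clear h2 hsum
    induction hE using Submodule.span_induction with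
    | mem y hy =>
      obtain ⟨D, β, α, hD, hβ, hα, rfl⟩ := hy
      have hDj : D.dim = j := by omega
      rw [C.act_comp]
      have h3 : HomTriv H D D.dim (C.act β z) := by
        refine hzh.act ?_
        have e : (X.dim : ℤ) + D.dim - j = X.dim := by rw [hDj]; ring
        rw [e]; exact hβ
      refine AlgTriv.act ?_ (hP.moving D _ h3)
      have e : (D.dim : ℤ) + j - D.dim = (X.dim : ℤ) - m := by rw [← hj]; push_cast; ring
      rw [e]; exact hα
    | zero => rw [C.act_zero]; exact (algTriv_closed hP X).zero _ _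
    | add y y' _ _ hy hy' => rw [C.act_add]; exact hP.add _ _ _ _ hy hy'
    | smul a y _ hy =>
      rw [C.act_apply, smul_mul_assoc, map_smul, ← C.act_apply]
      exact (algTriv_closed hP X).smul _ _ _ _ hy

lemma zero_of_countable (hP : Principles H) {p : C.A (X.prod X)} (hp : C.Deg X.dim p)
    (hidem : C.comp p p = p) (h : CountablyAlgGenerated H p) : p = 0 := by
  have hcl := algTriv_closed hP X
  have h1 : ∀ m ≤ X.dim + 1, Stage (AlgTriv H) p m := by
    intro m
    induction m with
    | zero => exact fun _ => stage_zero hcl hp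
    | succ m ih =>
      intro hm
      exact stage_succ hP.spreading hcl hp hidem (j := X.dim - m) (by omega) (h _) (ih (by omega))
  exact stage_top hP hidem (h1 _ le_rfl)

lemma zero_of_finite (hP : Principles H) {p : C.A (X.prod X)} (hp : C.Deg X.dim p)
    (hidem : C.comp p p = p) (hcl0 : H.cl p = 0) (h : FinitelyGeneratedMotive p) : p = 0 := by
  have hcl := algTriv_closed hP X
  have h1 : ∀ m ≤ X.dim + 1, Stage (AlgTriv H) p m := by
    intro m
    induction m with
    | zero => exact fun _ => stage_zero hcl hp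
    | succ m ih =>
      intro hm
      have hst := ih (by omega)
      refine stage_succ hP.spreading hcl hp hidem (j := X.dim - m) (by omega) ?_ hst
      obtain ⟨r, g, hg, hgen⟩ := h (X.dim - m)
      refine ⟨Fin r, inferInstance, fun _ => X, fun _ => X.dim - m, g,
        fun i => alg_of_stage (j := X.dim - m) hP hcl0 (by omega) hst (hg i), fun z hz => ?_⟩
      obtain ⟨Γ, hΓ, rfl⟩ := hgen z hz
      refine Submodule.sum_mem _ fun i _ => Submodule.subset_span ⟨i, Γ i, ?_, rfl⟩
      have e1 : (X.dim : ℤ) + (X.dim - m : ℕ) - (X.dim - m : ℕ) = X.dim := by ring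
      rw [e1]; exact hΓ i
  exact stage_top hP hidem (h1 _ le_rfl)

theorem phantom_tfae (hP : Principles H) {p : C.A (X.prod X)} (hp : C.Deg X.dim p)
    (hidem : C.comp p p = p) (hcl0 : H.cl p = 0) :
    [p = 0, FinitelyGeneratedMotive p, OneAlgGenerator H p, CountablyAlgGenerated H p].TFAE := by
  have hz0 : p = 0 → ∀ {j z}, InMotive p j z → z = 0 := by
    intro h j z hz
    rw [← hz.2, h, C.act_zero]
  tfae_have 1 → 2 := by
    intro h j
    exact ⟨0, fun i => i.elim0, fun i => i.elim0, fun z hz => ⟨fun i => i.elim0,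
      fun i => i.elim0, by rw [hz0 h hz, Finset.univ_eq_empty, Finset.sum_empty]⟩⟩
  tfae_have 1 → 3 := by
    intro h
    refine ⟨X, 0, 0, (algTriv_closed hP X).zero _ _, fun j z hz => ⟨0, zero_mem _, ?_⟩⟩
    rw [hz0 h hz, C.act_zero]
  tfae_have 3 → 4 := by
    rintro ⟨V, e, g, hg, hw⟩ j
    refine ⟨Unit, inferInstance, fun _ => V, fun _ => e, fun _ => g, fun _ => hg, fun z hz => ?_⟩
    obtain ⟨Γ, hΓ, rfl⟩ := hw j z hz
    exact Submodule.subset_span ⟨(), Γ, hΓ, rfl⟩
  tfae_have 2 → 1 := zero_of_finite hP hp hidem hcl0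
  tfae_have 4 → 1 := zero_of_countable hP hp hidem
  tfae_finish

end Pool.Agent.Q28.FG
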