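import Pool.Agent.Q28.FG.High
import Pool.Agent.Q28.FG.GDefs

/-!
# Graded pieces of a Bloch-Beilinson filtration on zero-cycles: proofs
-/

open CategoryTheory AlgebraicGeometry

universe u v w

namespace Pool.Agent.Q28.FG

set_option linter.unusedSectionVars false

open Pool.Agent.H914 Pool.Agent.H914.VarClass Pool.Agent.H914.VarClass.Obj Pool.Agent.W492.BB
  Pool.Agent.W550.Corr Pool.Agent.TH133 Pool.Agent.Q28.PV Pool.Agent.Q28.AL

variable {k : Type u} [Field k] {𝒱 : VarClass k} {C : TheoryData.{u, v, 0} 𝒱 ℚ} [IsChowProj C]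
  {K : Type w} [Field K] {H : WeilTheoryData.{u, v, w} C K} [IsWeilProj H]
  {X Y Z T S B : 𝒱.Obj} {P : (V : 𝒱.Obj) → ℕ → C.A V → Prop}

/-- A correspondence whose values on zero-cycles are generated by cycles with the property `P` is
the sum of a correspondence with the property `P` and of one supported over a divisor. -/
theorem spread_sum (hsp : Spreading C) (hP : Closed P) {f : C.A (X.prod Y)} {j : ℕ}
    (hf : C.Deg j f) {ι : Type} [Countable ι] {V : ι → 𝒱.Obj} {e : ι → ℕ}
    {z : ∀ i, C.A (V i)} (hz : ∀ i, P (V i) (e i) (z i))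
    (hgen : ∀ y : C.A X, C.Deg X.dim y → C.act f y ∈ generated C e z Y j) :
    ∃ G E, P (X.prod Y) j G ∧ E ∈ overDivisors C X Y j ∧ f = G + E := by
  obtain ⟨B, b, q, hB, hq, hb, hmem⟩ := hsp ι Empty V e z (fun i => i.elim) X Y j
    (fun i => i.elim) f (fun i => hP.deg _ _ _ (hz i)) (fun i => i.elim) hf
    (fun y hy => Submodule.mem_sup_left (hgen y hy))
  obtain ⟨gm, hgm, s, hs, hsum⟩ := Submodule.mem_sup.1 hmem
  obtain ⟨g, hgg, m, hm, hgms⟩ := Submodule.mem_sup.1 hgm
  have hm0 : m = 0 := by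
    have : throughFixed C (κ := Empty) (U := fun i => i.elim) (T := Y) (fun i => i.elim) B ≤ ⊥ := by
      refine Submodule.span_le.2 ?_
      rintro g ⟨i, -⟩
      exact i.elim
    exact (Submodule.mem_bot _).1 (this hm)
  have hcof : C.Deg X.dim (C.cograph b) := cograph_mem b
  have hg2 : P (X.prod Y) j (C.comp (C.cograph b) g) :=
    comp_closed hP hcof (by rw [hB]) (generated_closed hP hz hgg)
  have hs2 : C.comp (C.cograph b) s ∈ overDivisors C X Y j := by
    clear hsum
    induction hs using Submodule.span_induction with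
    | mem y hy =>
      obtain ⟨D', β, α', hD', hβ, hα', rfl⟩ := hy
      refine Submodule.subset_span ⟨D', C.comp (C.cograph b) β, α', by rw [hD', hB], ?_, hα',
        (comp_assoc C _ _ _).symm⟩
      have h1 : C.cograph b ∈ C.gr (X.prod B) ((X.dim : ℤ) + 0) := by rw [add_zero]; exact hcof
      have h2 : β ∈ C.gr (B.prod D') ((B.dim : ℤ) + 0) := by rw [add_zero]; exact hβ
      have h3 := comp_mem C h1 h2
      rw [add_zero, add_zero] at h3
      exact h3
    | zero => rw [comp_zero]; exact Submodule.zero_mem _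
    | add y y' _ _ hy hy' => rw [comp_add]; exact Submodule.add_mem _ hy hy'
    | smul a y _ hy => rw [comp_smul']; exact Submodule.smul_mem _ _ hy
  have e4 : C.comp (C.cograph b) (C.comp (C.graph b) f) = q • f := by
    rw [← comp_assoc C (C.cograph b), cograph_comp_graph hb, smul_comp', dg_comp]
  rw [← hsum, ← hgms, hm0, add_zero, comp_add] at e4
  refine ⟨q⁻¹ • C.comp (C.cograph b) g, q⁻¹ • C.comp (C.cograph b) s,
    hP.smul _ _ _ _ hg2, Submodule.smul_mem _ _ hs2, ?_⟩
  rw [← smul_add, e4, smul_smul, inv_mul_cancel₀ hq, one_smul]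

/-- Correspondences supported over a divisor act as zero on zero-cycles. -/
lemma overDivisors_act {j : ℕ} {E : C.A (X.prod Y)} (hE : E ∈ overDivisors C X Y j) {y : C.A X}
    (hy : C.Deg X.dim y) : C.act E y = 0 := by
  induction hE using Submodule.span_induction with
  | mem g hg =>
    obtain ⟨D, β, α, hD, hβ, hα, rfl⟩ := hg
    have h1 : β ∈ C.gr (X.prod D) ((X.dim : ℤ) + 0) := by rw [add_zero]; exact hβ
    have h2 := act_mem' C h1 hy
    rw [C.act_comp, IsChowProj.gr_top D _ _ h2 (by rw [add_zero]; omega), C.act_map_zero]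
  | zero => exact C.act_zero y
  | add g g' _ _ hg hg' => rw [C.act_add, hg, hg', add_zero]
  | smul a g _ hg => rw [C.act_apply, smul_mul_assoc, map_smul, ← C.act_apply, hg, smul_zero]

/-- Generated subspaces are stable under correspondences of degree zero. -/
lemma generated_act {ι : Type} {V : ι → 𝒱.Obj} {e : ι → ℕ} {z : ∀ i, C.A (V i)} {u : C.A Y}
    (hu : u ∈ generated C e z Y Y.dim) {ρ : C.A (Y.prod Y)} (hρ : C.Deg Y.dim ρ) :
    C.act ρ u ∈ generated C e z Y Y.dim := by
  induction hu using Submodule.span_induction with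
  | mem y hy =>
    obtain ⟨i, Γ, hΓ, rfl⟩ := hy
    refine Submodule.subset_span ⟨i, C.comp Γ ρ, ?_, (C.act_comp Γ ρ (z i)).symm⟩
    refine comp_deg (j := e i) (i := Y.dim) (l := Y.dim) hΓ ?_
    have e1 : (Y.dim : ℤ) + Y.dim - Y.dim = Y.dim := by ring
    rw [e1]; exact hρ
  | zero => rw [C.act_map_zero]; exact Submodule.zero_mem _
  | add y y' _ _ hy hy' => rw [act_map_add]; exact Submodule.add_mem _ hy hy'
  | smul a y _ hy => rw [act_map_smul]; exact Submodule.smul_mem _ _ hy

theorem piece_main (hsp : Spreading C) {F : ∀ X : 𝒱.Obj, ℕ → ℕ → Submodule ℚ (C.A X)}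
    (hF : IsBBFiltration H F) {i : ℕ} {π : C.A (X.prod X)} {ρ : C.A (Y.prod Y)}
    (hπ : IsPieceProjector F X i π) (hρ : IsPieceProjector F Y i ρ) {Z : C.A (X.prod Y)}
    (hZ : C.Deg Y.dim Z) :
    [ZeroOnPiece F i Z, FiniteOnPiece H F i Z, CountableOnPiece H F i Z,
      ∃ G, C.Deg Y.dim G ∧ H.cl G = 0 ∧ C.comp (C.comp π Z) ρ - G ∈ overDivisors C X Y Y.dim,
      C.comp (C.comp π Z) ρ ∈ overDivisors C X Y Y.dim].TFAE := by
  have hXX : (X.dim : ℤ) + X.dim - X.dim = X.dim := by ring
  have hYY : (Y.dim : ℤ) + Y.dim - Y.dim = Y.dim := by ring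
  have hXY : (X.dim : ℤ) + Y.dim - X.dim = Y.dim := by ring
  have hfd : C.Deg Y.dim (C.comp (C.comp π Z) ρ) := by
    have h1 := comp_deg (j := X.dim) (i := X.dim) (l := Y.dim) (by rw [hXX]; exact hπ.deg)
      (by rw [hXY]; exact hZ)
    have h2 := comp_deg (j := X.dim) (i := Y.dim) (l := Y.dim) h1 (by rw [hYY]; exact hρ.deg)
    rwa [hXY] at h2
  have hfa : ∀ y, C.act (C.comp (C.comp π Z) ρ) y = C.act ρ (C.act Z (C.act π y)) := by
    intro y
    rw [C.act_comp, C.act_comp]
  have hZF : ∀ w ∈ F X X.dim i, C.act Z w ∈ F Y Y.dim i :=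
    fun w hw => (hF.act X Y X.dim Y.dim i Z (by rw [hXY]; exact hZ) w hw).1
  -- the first statement in terms of the component
  have key : ZeroOnPiece F i Z ↔ ∀ y, C.Deg X.dim y → C.act (C.comp (C.comp π Z) ρ) y = 0 := by
    constructor
    · intro h y hy
      rw [hfa]
      exact hρ.kills _ (h _ (hπ.maps y hy))
    · intro h w hw
      have hwd : C.Deg X.dim w := hF.deg X X.dim i w hw
      have h1 : C.act Z w = C.act Z (w - C.act π w) + C.act Z (C.act π w) := by
        rw [← act_map_add, sub_add_cancel]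
      have h2 : C.act Z (w - C.act π w) ∈ F Y Y.dim (i + 1) :=
        (hF.act X Y X.dim Y.dim (i + 1) Z (by rw [hXY]; exact hZ) _ (hπ.rest w hw)).1
      have h3 := hρ.rest _ (hZF _ (hπ.maps w hwd))
      rw [← hfa, h w hwd, sub_zero] at h3
      rw [h1]
      exact Submodule.add_mem _ h2 h3
  tfae_have 1 → 2 := by
    intro h
    exact ⟨0, fun i => i.elim0, fun i => i.elim0, fun w hw => ⟨fun i => i.elim0,
      fun i => i.elim0, by
        rw [Finset.univ_eq_empty, Finset.sum_empty, sub_zero]; exact h w hw⟩⟩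
  tfae_have 2 → 3 := by
    rintro ⟨m, z, hz, hw⟩
    refine ⟨Fin m, inferInstance, fun _ => Y, fun _ => Y.dim, z, hz, fun w hw' => ?_⟩
    obtain ⟨Γ, hΓ, he⟩ := hw w hw'
    exact ⟨_, Submodule.sum_mem _ fun l _ => Submodule.subset_span ⟨l, Γ l,
      by rw [hYY]; exact hΓ l, rfl⟩, he⟩
  tfae_have 3 → 4 := by
    rintro ⟨ι, _, V, e, z, hz, hw⟩
    obtain ⟨G, E, hG, hE, h⟩ := spread_sum hsp (homTriv_closed (H := H)) (j := Y.dim) hfd hz
      (fun y hy => by
        obtain ⟨u, hu, hd⟩ := hw _ (hπ.maps y hy)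
        rw [hfa]
        have h1 := hρ.kills _ hd
        rw [act_map_sub, sub_eq_zero] at h1
        rw [h1]
        exact generated_act hu hρ.deg)
    exact ⟨G, hG.1, hG.2, by rw [h, add_sub_cancel_left]; exact hE⟩
  tfae_have 4 → 1 := by
    rintro ⟨G, hG1, hG2, hE⟩
    have hG : HomTriv H (X.prod Y) Y.dim G := ⟨hG1, hG2⟩
    have h := (add_sub_cancel G (C.comp (C.comp π Z) ρ)).symm
    rw [key]
    intro y hy
    have hπy := hπ.maps y hy
    have hπd : C.Deg X.dim (C.act π y) := by
      have h1 : π ∈ C.gr (X.prod X) ((X.dim : ℤ) + 0) := by rw [add_zero]; exact hπ.deg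
      have h2 := act_mem' C h1 hy
      rwa [add_zero] at h2
    have e1 : C.act (C.comp (C.comp π Z) ρ) y = C.act G (C.act π y) := by
      have e2 : C.act (C.comp (C.comp π Z) ρ) y = C.act (C.comp (C.comp π Z) ρ) (C.act π y) := by
        rw [hfa, hfa, ← C.act_comp π π, hπ.idem]
      rw [e2, h, C.act_add, overDivisors_act hE hπd, add_zero]
    have e3 : C.act ρ (C.act (C.comp (C.comp π Z) ρ) y) = C.act (C.comp (C.comp π Z) ρ) y := by
      rw [hfa, ← C.act_comp ρ ρ, hρ.idem]
    rw [← e3, e1]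
    exact hρ.kills _ ((hF.act X Y X.dim Y.dim i G (by rw [hXY]; exact hG.1) _ hπy).2 hG.2)
  tfae_have 1 → 5 := by
    intro h
    rw [key] at h
    have hgen : ∀ y : C.A X, C.Deg X.dim y → C.act (C.comp (C.comp π Z) ρ) y ∈
        generated C (ι := Empty) (V := fun i => i.elim) (fun i => i.elim) (fun i => i.elim)
          Y Y.dim := fun y hy => by rw [h y hy]; exact Submodule.zero_mem _
    obtain ⟨G, E, hG, hE, he⟩ := spread_sum hsp (P := fun V e z => z = 0)
      ⟨fun V e z h => by rw [h]; exact zero_mem _, fun V W e j Γ z _ h => by rw [h, C.act_map_zero],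
        fun V e z z' h h' => by rw [h, h', add_zero], fun V e => rfl,
        fun V e q z h => by rw [h, smul_zero]⟩ (j := Y.dim) hfd (fun i => i.elim) hgen
    rw [he, hG, zero_add]
    exact hE
  tfae_have 5 → 4 := fun h => ⟨0, zero_mem _, map_zero _, by rw [sub_zero]; exact h⟩
  tfae_finish

end Pool.Agent.Q28.FG
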